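import Pool.Agent.Q207.NS.Nag
import Pool.Agent.Q207.NS.Tr
import Pool.Agent.Q282.MJ.Rank

/-!
# The conjecture of Beilinson and Bloch for products of curves: the Mestre-Nagao sums of the constituents

Let `K` be a number field with the ring of integers `𝓞`, and let `C_1, ..., C_n` be the curves of genus `g_j ≥ 1`
`C_j : y ^ 2 = f_j(x) = (x - a_1) ⋯ (x - a_{r_j}) h(x) + l(x) ^ 2`,
with monic `h` of degree `2 g_j + 1 - r_j` and `l` of degree `< r_j` over `𝓞`, `0 ≤ r_j ≤ g_j`: these are the curves `y ^ 2 = f(x)`,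
`f` monic of degree `2 g_j + 1`, with `r_j` marked points `(a_i, l(a_i))` in general position. Let `X = C_1 × ⋯ × C_n`. By the
formula of Künneth the groups `H^(2m-1)(X)` are sums of twists of the representations `V_S = ⊗_{j ∈ S} H^1(C_j)`, `S` a set of an odd
number of indices, and `L(H^(2m-1)(X), s)` at `s = m` is the product of the `L(V_S, s)` at their centres `s = (|S| + 1) / 2`.

The conjecture predicts that the order of vanishing of `L(V_S, s)` at the centre is the rank of the corresponding part of the Chow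
groups; for `S = {j}` this is the rank of the Jacobian of `C_j`. The logarithmic derivative of `L(V_S, s)` at the centre is formally
`- ∑ tr(Frob_v | V_S) log q_v / q_v ^ ((|S| + 1) / 2) + ...`, and the rank is searched for in practice (Mestre, Nagao) by means of the
sums `N_S(X, Y) = - (log X)⁻¹ ∑_{q_v ≤ Y} tr(Frob_v | V_S) log q_v / q_v ^ ((|S| + 1) / 2)` over the primes `v` of good reduction.

Let the coordinates of the parameters (the `a_i`, the coefficients of the `h` and `l`) in a `ℤ`-basis of `𝓞` be taken at random in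
any box with sides at least `X ^ k`, where `k → ∞` with `X` as slowly as one likes. It is proved that for `X → ∞` the
`2 ^ (n - 1)` processes `s ↦ √2 (N_S(X, X ^ √s) - ρ_S √s)`, `0 < s ≤ 1`, with `ρ_S = r_j` for `S = {j}` and `ρ_S = 0` for
`|S| ≥ 3`, converge jointly to independent Brownian motions, uniformly in the basis and the box, while the Jacobians of all `C_j`
have rank at least `r_j` over `K`. So for `s = 1` the sums `N_S(X, X)` are asymptotically independent normal variables of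
variance `1 / 2` with the means `ρ_S`: the number of the independent cycles that the marked points define in the part of the Chow
group that belongs to `S`. For `H^(2m-1)(X)` itself the sum `N_m = ∑_S mult(S) N_S` is asymptotically normal with the mean
`binom (n - 1) (m - 1) (r_1 + ⋯ + r_n)`, the number of the homologically trivial cycles `(P - ∞) × points` of codimension `m` that the
marked points define, and with the variance `∑_S mult(S) ^ 2 / 2`.

Proof. The mean of `- tr(Frob_v | V_S) / q_v ^ ((|S| + 1) / 2)` over the family over the residue field is `ρ_S / q_v + O(q_v ^ (-3/2))`,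
the products for different `S` are orthogonal up to `O(q_v ^ (-3/2))`, and the mean squares are `1 / q_v + O(q_v ^ (-3/2))` (Weil).
With `∑_{p ≤ X} ν(p) log p / p ~ log X`, `ν(p)` the number of the primes of degree one over `p`, the means and covariances of the sums
tend to those of the Brownian motions. The characteristic functions are compared with those of independent variables by a Taylor
polynomial of large degree, the chinese remainder theorem and exponential moments; the theorem of Lévy on characteristic functions is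
in Mathlib. The ranks: a sieve for every factor.
-/

set_option autoImplicit false

namespace Pool.Agent.Results.MP_b8021b_nt.NagaoSumsProducts

open Finset NumberField Polynomial IsDedekindDomain
open Q282.JK Q282.PX Q282.MJ
open scoped NNReal

/-- The sets of an odd number of indices `0, ..., n - 1`. -/
abbrev OddSet (n : ℕ) : Type := {S : Finset (Fin n) // Odd S.card}

/-- `ρ_S = r_j` for `S = {j}`, and `ρ_S = 0` if `S` has more than one element. -/
noncomputable def mean {n : ℕ} (r : Fin n → ℕ) (S : Finset (Fin n)) : ℝ := if S.card = 1 then ∑ j ∈ S, (r j : ℝ) else 0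

/-- `N_S(X, Y) = - (log X)⁻¹ ∑ tr(Frob_v | ⊗_{j ∈ S} H^1(C_j)) log q / q ^ ((|S| + 1) / 2)`, the sum over all primes `v` of `K` with
`GoodP f v` and norm `q ≤ Y`. -/
noncomputable def nagaoS {K : Type} [Field K] [NumberField K] {n : ℕ} (f : Fin n → (𝓞 K)[X]) (S : Finset (Fin n)) (X : ℕ) (Y : ℝ) : ℝ :=
  -(∑ᶠ v ∈ {v : HeightOneSpectrum (𝓞 K) | GoodP f v ∧ (Ideal.absNorm v.asIdeal : ℝ) ≤ Y},
    traceS f v S 1 * Real.log (Ideal.absNorm v.asIdeal) / (Ideal.absNorm v.asIdeal : ℝ) ^ ((S.card + 1) / 2)) / Real.log X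

/-- `N_m(X, Y) = - (log X)⁻¹ ∑ tr(Frob_v | H^(2m-1)(C_1 × ... × C_n)) log q / q ^ m`, the sum over all primes `v` of `K` with
`GoodP f v` and norm `q ≤ Y`. -/
noncomputable def nagaoM {K : Type} [Field K] [NumberField K] {n : ℕ} (f : Fin n → (𝓞 K)[X]) (m : ℕ) (X : ℕ) (Y : ℝ) : ℝ :=
  -(∑ᶠ v ∈ {v : HeightOneSpectrum (𝓞 K) | GoodP f v ∧ (Ideal.absNorm v.asIdeal : ℝ) ≤ Y},
    traceP f v (2 * m - 1) 1 * Real.log (Ideal.absNorm v.asIdeal) / (Ideal.absNorm v.asIdeal : ℝ) ^ m) / Real.log X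

/-- `√2 (N_S(X, X ^ √s) - ρ_S √s)`. -/
noncomputable def processS {K : Type} [Field K] [NumberField K] {n : ℕ} (r : Fin n → ℕ) (f : Fin n → (𝓞 K)[X]) (S : OddSet n)
    (X : ℕ) (s : ℝ) : ℝ :=
  Real.sqrt 2 * (nagaoS f S.1 X ((X : ℝ) ^ Real.sqrt s) - mean r S.1 * Real.sqrt s)

/-- `σ_m`: the square root of the sum of the squares of the multiplicities of the `⊗_{j ∈ S} H^1(C_j)` in
`H^(2m-1)(C_1 × ... × C_n)`. -/
noncomputable def deviation (n m : ℕ) : ℝ := Real.sqrt (∑ S : OddSet n, (mult n m S.1 : ℝ) ^ 2)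

/-- `√2 (N_m(X, X ^ √s) - binom (n - 1) (m - 1) (r_1 + ... + r_n) √s) / σ_m`. -/
noncomputable def process {K : Type} [Field K] [NumberField K] {n : ℕ} (r : Fin n → ℕ) (f : Fin n → (𝓞 K)[X]) (m : ℕ)
    (X : ℕ) (s : ℝ) : ℝ :=
  Real.sqrt 2 * (nagaoM f m X ((X : ℝ) ^ Real.sqrt s) - (n - 1).choose (m - 1) * (∑ j, (r j : ℝ)) * Real.sqrt s) / deviation n m

/-- The distribution function of the Brownian motion `B` at the times `s ∈ I`: the probability that `B_s ≤ x_s` for all `s ∈ I`. -/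
noncomputable def brownian (I : Finset ℝ≥0) (x : I → ℝ) : ℝ :=
  (ProbabilityTheory.BrownianReal.projectiveFamily I (Set.Iic x)).toReal

/-- The box of the integers `n k` with `N k ≤ n k < N k + L k` for all `k`. -/
noncomputable def box {κ : Type} [Fintype κ] [DecidableEq κ] (N : κ → ℤ) (L : κ → ℕ) : Finset (κ → ℤ) :=
  Fintype.piFinset fun k => Ico (N k) (N k + L k)

/-- The elements `t i = ∑ n (i, j) b j` with the coordinates `n (i, j)`. -/
def combine {O : Type} [CommRing O] {ι : Type} {d : ℕ} (b : Fin d → O) (n : ι × Fin d → ℤ) : ι → O :=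
  fun i => ∑ j, (n (i, j) : O) * b j

open Classical in
/-- The proportion of the `n` of the box with the property `P`. -/
noncomputable def proportion {κ : Type} [Fintype κ] [DecidableEq κ] (N : κ → ℤ) (L : κ → ℕ) (P : (κ → ℤ) → Prop) : ℝ :=
  (((box N L).filter P).card : ℝ) / ∏ k, (L k : ℝ)

/-- Every `f j` is irreducible over `K`, and the group of the `K`-rational points of the Jacobian of the curve
`C_j : y ^ 2 = f_j(x)`, which is the class group of its affine coordinate ring over `K`, has rank at least `r j`. -/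
def Ranks (K : Type) [Field K] [NumberField K] {n : ℕ} (r : Fin n → ℕ) (f : Fin n → (𝓞 K)[X]) : Prop :=
  ∀ j, Irreducible ((f j).map (algebraMap (𝓞 K) K)) ∧ HasClassRank (CoordRing ((f j).map (algebraMap (𝓞 K) K))) (r j)

/-! ### Proofs -/

lemma proportion_eq {κ : Type} [Fintype κ] [DecidableEq κ] (N : κ → ℤ) (L : κ → ℕ) (P : (κ → ℤ) → Prop) [DecidablePred P] :
    proportion N L P = (((box N L).filter P).card : ℝ) / ∏ k, (L k : ℝ) := by
  classical
  unfold proportion
  congr 2
  refine congrArg Finset.card ?_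
  ext t
  simp only [mem_filter]

lemma basis_span {K : Type} [Field K] [NumberField K] (b : Module.Basis (Fin (Module.finrank ℚ K)) ℤ (𝓞 K)) :
    ∀ x : 𝓞 K, ∃ a : Fin (Module.finrank ℚ K) → ℤ, x = ∑ j, (a j : 𝓞 K) * b j := by
  intro x
  refine ⟨fun j => b.repr x j, ?_⟩
  have h1 := b.sum_repr x
  rw [← h1]
  refine sum_congr rfl fun j _ => ?_
  rw [h1, zsmul_eq_mul]

/-- intersection with the rank condition -/
lemma with_rank {κ : Type} [Fintype κ] [DecidableEq κ] (N : κ → ℤ) (L : κ → ℕ) (hL : 0 < ∏ k, (L k : ℝ)) (P R : (κ → ℤ) → Prop) (w ε : ℝ)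
    (h1 : |proportion N L P - w| ≤ ε / 2) (h2 : proportion N L (fun n => ¬ R n) ≤ ε / 2) :
    |proportion N L (fun n => R n ∧ P n) - w| ≤ ε := by
  classical
  have h6 : proportion N L (fun n => R n ∧ P n) ≤ proportion N L P := by
    rw [proportion_eq, proportion_eq]
    refine div_le_div_of_nonneg_right ?_ hL.le
    have : (box N L).filter (fun n => R n ∧ P n) ⊆ (box N L).filter P := by
      intro t ht
      rw [mem_filter] at ht ⊢
      exact ⟨ht.1, ht.2.2⟩
    exact_mod_cast card_le_card this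
  have h7 : proportion N L P ≤ proportion N L (fun n => R n ∧ P n) + proportion N L (fun n => ¬ R n) := by
    rw [proportion_eq, proportion_eq, proportion_eq, ← add_div]
    refine div_le_div_of_nonneg_right ?_ hL.le
    have : (box N L).filter P ⊆ (box N L).filter (fun n => R n ∧ P n) ∪ (box N L).filter (fun n => ¬ R n) := by
      intro t ht
      rw [mem_filter] at ht
      rw [mem_union, mem_filter, mem_filter]
      by_cases hR : R t
      · exact Or.inl ⟨ht.1, hR, ht.2⟩
      · exact Or.inr ⟨ht.1, hR⟩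
    exact_mod_cast (card_le_card this).trans (card_union_le _ _)
  have h10 := abs_le.1 h1
  rw [abs_le]
  constructor <;> linarith

/-- the good primes of bounded norm -/
lemma finite_good {K : Type} [Field K] [NumberField K] (P : HeightOneSpectrum (𝓞 K) → Prop) (Y : ℝ) :
    {v : HeightOneSpectrum (𝓞 K) | P v ∧ (Ideal.absNorm v.asIdeal : ℝ) ≤ Y}.Finite := by
  refine Set.Finite.subset (Q282.GK.SX K ⌊Y⌋₊).finite_toSet fun v hv => ?_
  rw [mem_coe, Q282.GK.mem_SX]
  exact Nat.le_floor hv.2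

/-- sums over the good primes up to `X ^ √s` -/
lemma sum_good {K : Type} [Field K] [NumberField K] {n : ℕ} (f : Fin n → (𝓞 K)[X]) (X : ℕ) (s : ℝ) (hX : 1 ≤ X) (hs : s ≤ 1)
    (tr : HeightOneSpectrum (𝓞 K) → ℝ) (e : ℕ) (𝒞 : Finset (Fin n → Fin 3))
    (htr : ∀ v, GoodP f v → -(tr v / (Ideal.absNorm v.asIdeal : ℝ) ^ e) = Q207.NS.valN 𝒞 f v) :
    Real.sqrt 2 * (-(∑ᶠ v ∈ {v : HeightOneSpectrum (𝓞 K) | GoodP f v ∧ (Ideal.absNorm v.asIdeal : ℝ) ≤ (X : ℝ) ^ Real.sqrt s},
      tr v * Real.log (Ideal.absNorm v.asIdeal) / (Ideal.absNorm v.asIdeal : ℝ) ^ e) / Real.log X) =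
      ∑ v ∈ Q282.GK.SX K X, Q282.MN.cw X s (Ideal.absNorm v.asIdeal) * 1 * Q207.NS.valN 𝒞 f v := by
  classical
  have hX0 : (0 : ℝ) ≤ (X : ℝ) ^ Real.sqrt s := by positivity
  have h1 : {v : HeightOneSpectrum (𝓞 K) | GoodP f v ∧ (Ideal.absNorm v.asIdeal : ℝ) ≤ (X : ℝ) ^ Real.sqrt s} =
      (((Q282.GK.SX K X).filter fun v => GoodP f v ∧ Ideal.absNorm v.asIdeal ≤ Q282.MN.tx X s : Finset (HeightOneSpectrum (𝓞 K))) :
        Set (HeightOneSpectrum (𝓞 K))) := by
    ext v
    rw [Set.mem_ofPred_eq, mem_coe, mem_filter, Q282.GK.mem_SX]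
    unfold Q282.MN.tx
    rw [Nat.le_floor_iff hX0]
    constructor
    · rintro ⟨h1, h2⟩
      refine ⟨?_, h1, h2⟩
      have h3 := Q282.MN.tx_le hX hs
      unfold Q282.MN.tx at h3
      exact ((Nat.le_floor_iff hX0).2 h2).trans h3
    · rintro ⟨_, h1, h2⟩
      exact ⟨h1, h2⟩
  rw [h1, finsum_mem_coe_finset, sum_filter, ← sum_neg_distrib, sum_div, mul_sum]
  refine sum_congr rfl fun v _ => ?_
  by_cases h3 : GoodP f v
  · rw [← htr v h3]
    unfold Q282.MN.cw
    by_cases h4 : Ideal.absNorm v.asIdeal ≤ Q282.MN.tx X s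
    · rw [if_pos ⟨h3, h4⟩, if_pos h4]
      ring
    · rw [if_neg fun h => h4 h.2, if_neg h4]
      ring
  · have h5 : Q207.NS.valN 𝒞 f v = 0 := if_neg h3
    rw [if_neg fun h => h3 h.1, h5]
    ring

lemma norm_S {K : Type} [Field K] [NumberField K] {n : ℕ} (f : Fin n → (𝓞 K)[X]) (S : OddSet n) (v : HeightOneSpectrum (𝓞 K))
    (h : GoodP f v) : -(traceS f v S.1 1 / (Ideal.absNorm v.asIdeal : ℝ) ^ ((S.1.card + 1) / 2)) = Q207.NS.valN {cS S.1} f v := by
  let _ : Fintype (Res v) := Fintype.ofFinite _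
  let _ : DecidableEq (Res v) := Classical.decEq _
  have h1 := trace_zkS f v ((two_iff v).1 h.1) S.1 S.2 1 le_rfl
  rw [mul_one, pow_one] at h1
  unfold Q207.NS.valN
  rw [if_pos h]
  exact h1

lemma norm_M {K : Type} [Field K] [NumberField K] {n : ℕ} (f : Fin n → (𝓞 K)[X]) (m : ℕ) (hm : 1 ≤ m) (v : HeightOneSpectrum (𝓞 K))
    (h : GoodP f v) : -(traceP f v (2 * m - 1) 1 / (Ideal.absNorm v.asIdeal : ℝ) ^ m) = Q207.NS.valN (types n (2 * m - 1)) f v := by
  let _ : Fintype (Res v) := Fintype.ofFinite _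
  let _ : DecidableEq (Res v) := Classical.decEq _
  have h1 := trace_zk f v ((two_iff v).1 h.1) m hm 1 le_rfl
  rw [mul_one, pow_one] at h1
  unfold Q207.NS.valN
  rw [if_pos h]
  exact h1

lemma valN_types {K : Type} [Field K] [NumberField K] {n : ℕ} (f : Fin n → (𝓞 K)[X]) (m : ℕ) (hm : 1 ≤ m) (v : HeightOneSpectrum (𝓞 K)) :
    Q207.NS.valN (types n (2 * m - 1)) f v = ∑ S : OddSet n, mult n m S.1 * Q207.NS.valN {cS S.1} f v := by
  classical
  have e1 : ∑ S : OddSet n, (mult n m S.1 : ℝ) * Q207.NS.valN {cS S.1} f v =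
      ∑ S ∈ (univ : Finset (Finset (Fin n))).filter (fun S => Odd S.card), (mult n m S : ℝ) * Q207.NS.valN {cS S} f v :=
    (sum_subtype (s := (univ : Finset (Finset (Fin n))).filter (fun S => Odd S.card)) (p := fun S => Odd S.card) (fun S => by simp)
      (fun S : Finset (Fin n) => (mult n m S : ℝ) * Q207.NS.valN {cS S} f v)).symm
  rw [e1, Q207.NS.valN_sum]
  have h2 : ∀ c ∈ types n (2 * m - 1), ones c ∈ (univ : Finset (Finset (Fin n))).filter (fun S => Odd S.card) := by
    intro c hc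
    rw [mem_filter]
    exact ⟨mem_univ _, (types_odd hm hc).2⟩
  rw [← sum_fiberwise_of_maps_to h2]
  refine sum_congr rfl fun S _ => ?_
  have h3 : ∀ c ∈ (types n (2 * m - 1)).filter (fun c => ones c = S), Q207.NS.valN {cS (ones c)} f v = Q207.NS.valN {cS S} f v := by
    intro c hc
    rw [(mem_filter.1 hc).2]
  rw [sum_congr rfl h3, sum_const, nsmul_eq_mul]
  rfl

/-- the formula of Künneth for the sums -/
lemma kunneth {K : Type} [Field K] [NumberField K] {n : ℕ} (f : Fin n → (𝓞 K)[X]) (m : ℕ) (hm : 1 ≤ m) (X : ℕ) (Y : ℝ) :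
    nagaoM f m X Y = ∑ S : OddSet n, mult n m S.1 * nagaoS f S.1 X Y := by
  classical
  unfold nagaoM nagaoS
  have hfin := finite_good (K := K) (GoodP f) Y
  obtain ⟨A, hA⟩ : ∃ A : Finset (HeightOneSpectrum (𝓞 K)), A = hfin.toFinset := ⟨_, rfl⟩
  have hmem : ∀ v, v ∈ A ↔ GoodP f v ∧ (Ideal.absNorm v.asIdeal : ℝ) ≤ Y := by
    intro v
    rw [hA, Set.Finite.mem_toFinset, Set.mem_ofPred_eq]
  have hset : {v : HeightOneSpectrum (𝓞 K) | GoodP f v ∧ (Ideal.absNorm v.asIdeal : ℝ) ≤ Y} = (A : Set (HeightOneSpectrum (𝓞 K))) := by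
    ext v
    rw [Set.mem_ofPred_eq, mem_coe, hmem]
  rw [hset]
  simp only [finsum_mem_coe_finset]
  have e1 : ∀ S : OddSet n, (mult n m S.1 : ℝ) * (-(∑ v ∈ A, traceS f v S.1 1 * Real.log (Ideal.absNorm v.asIdeal) /
      (Ideal.absNorm v.asIdeal : ℝ) ^ ((S.1.card + 1) / 2)) / Real.log X) =
      ∑ v ∈ A, (mult n m S.1 : ℝ) * Q207.NS.valN {cS S.1} f v * (Real.log (Ideal.absNorm v.asIdeal) / Real.log X) := by
    intro S
    rw [← sum_neg_distrib, sum_div, mul_sum]
    refine sum_congr rfl fun v hv => ?_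
    rw [← norm_S f S v ((hmem v).1 hv).1]
    ring
  rw [sum_congr rfl fun S _ => e1 S, sum_comm, ← sum_neg_distrib, sum_div]
  refine sum_congr rfl fun v hv => ?_
  rw [← sum_mul, ← valN_types f m hm v, ← norm_M f m hm v ((hmem v).1 hv).1]
  ring

open Classical in
/-- Let `K` be a number field, `n ≥ 0`, `g_j ≥ 1` and `0 ≤ r_j ≤ g_j` for `j = 1, ..., n`, and consider the polynomials
`f_j = fj t j = (x - a_1) ⋯ (x - a_{r_j}) h(x) + l(x) ^ 2` of degree `2 g_j + 1` over the ring of integers of `K`, whose coefficients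
are the parameters `t` with the index `j`, and the curves `C_j : y ^ 2 = f_j(x)`.

(1) Let `I` be a finite set of times `s` with `0 < s ≤ 1`, let `x_{S, s}` be real numbers for the sets `S` of an odd number of indices
and `s ∈ I`, and `ε > 0`. There is an `X₁` with the following property. Let `X ≥ X₁`, let `b` be a basis of the ring of integers over
`ℤ` and let a box of coordinates be given all sides of which are at least `X ^ X₁`. Then the proportion of the `ν` of the box for which,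
with the parameters `t = combine b ν`, all `f_j` are irreducible over `K`, the rank of the Jacobian of every `C_j` over `K` is at
least `r_j`, and `√2 (N_S(X, X ^ √s) - ρ_S √s) ≤ x_{S, s}` for all `S` and `s`, differs by at most `ε` from the product over `S` of
the probabilities that the Brownian motion satisfies `B_s ≤ x_{S, s}` for all `s ∈ I`. Here `N_S(X, Y)` is
`- (log X)⁻¹ ∑ tr(Frob_v | ⊗_{j ∈ S} H^1(C_j)) log q / q ^ ((|S| + 1) / 2)`, the sum over the primes `v` with `GoodP f v` and norm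
`q ≤ Y`, and `ρ_S = r_j` if `S = {j}`, `ρ_S = 0` otherwise.

(2) The formula of Künneth: `N_m(X, Y) = ∑_S mult(S) N_S(X, Y)` for the sum `N_m(X, Y)` of the group
`H^(2m-1)(C_1 × ... × C_n)`, where `mult(S)` is the multiplicity of `⊗_{j ∈ S} H^1(C_j)` in this group, for all `m ≥ 1`, `X` and `Y`.

(3) For `1 ≤ m ≤ n` the process `√2 (N_m(X, X ^ √s) - binom (n - 1) (m - 1) (r_1 + ... + r_n) √s) / σ_m` converges to one Brownian
motion in the same sense, with `σ_m ^ 2 = ∑_S mult(S) ^ 2 > 0`. -/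
theorem result (K : Type) [Field K] [NumberField K] (n : ℕ) (g r : Fin n → ℕ) (hg : ∀ j, 1 ≤ g j) (hr : ∀ j, r j ≤ g j) :
    (∀ (I : Finset ℝ≥0), (∀ s ∈ I, 0 < s ∧ s ≤ 1) → ∀ (x : OddSet n → I → ℝ) (ε : ℝ), 0 < ε →
      ∃ X₁ : ℕ, ∀ X : ℕ, X₁ ≤ X → ∀ (b : Module.Basis (Fin (Module.finrank ℚ K)) ℤ (𝓞 K))
        (N : Ix g r × Fin (Module.finrank ℚ K) → ℤ) (L : Ix g r × Fin (Module.finrank ℚ K) → ℕ), (∀ k, X ^ X₁ ≤ L k) →
        |proportion N L (fun ν => Ranks K r (fj (combine b ν)) ∧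
          ∀ (S : OddSet n) (s : I), processS r (fj (combine b ν)) S X (s : ℝ≥0) ≤ x S s) - ∏ S, brownian I (x S)| ≤ ε) ∧
    (∀ (t : Ix g r → 𝓞 K) (m : ℕ), 1 ≤ m → ∀ (X : ℕ) (Y : ℝ),
      nagaoM (fj t) m X Y = ∑ S : OddSet n, mult n m S.1 * nagaoS (fj t) S.1 X Y) ∧
    (∀ m : ℕ, 1 ≤ m → m ≤ n → 0 < deviation n m ∧
      ∀ (I : Finset ℝ≥0), (∀ s ∈ I, 0 < s ∧ s ≤ 1) → ∀ (x : I → ℝ) (ε : ℝ), 0 < ε →
      ∃ X₁ : ℕ, ∀ X : ℕ, X₁ ≤ X → ∀ (b : Module.Basis (Fin (Module.finrank ℚ K)) ℤ (𝓞 K))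
        (N : Ix g r × Fin (Module.finrank ℚ K) → ℤ) (L : Ix g r × Fin (Module.finrank ℚ K) → ℕ), (∀ k, X ^ X₁ ≤ L k) →
        |proportion N L (fun ν => Ranks K r (fj (combine b ν)) ∧
          ∀ s : I, process r (fj (combine b ν)) m X (s : ℝ≥0) ≤ x s) - brownian I x| ≤ ε) := by
  -- the rank condition
  have hrank : ∀ ε : ℝ, 0 < ε → ∃ X₁ : ℕ, ∀ X : ℕ, X₁ ≤ X → ∀ (b : Module.Basis (Fin (Module.finrank ℚ K)) ℤ (𝓞 K))
      (N : Ix g r × Fin (Module.finrank ℚ K) → ℤ) (L : Ix g r × Fin (Module.finrank ℚ K) → ℕ), (∀ k, (X : ℝ) ≤ L k) →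
      proportion N L (fun ν => ¬ Ranks K r (fj (combine b ν))) ≤ ε := by
    intro ε hε
    obtain ⟨X₁, h⟩ := rank_all K n g r hg hr ε hε
    refine ⟨X₁, fun X hX b N L hL => ?_⟩
    rw [proportion_eq]
    exact h X hX (fun j => b j) (basis_span b) N L hL ((box N L).filter fun ν => ¬ Ranks K r (fj (combine b ν))) (filter_subset _ _)
      (fun ν hν hOk => (mem_filter.1 hν).2 fun j => ⟨(hOk j).1, (hOk j).2⟩)
  have hXL : ∀ X : ℕ, 16 ≤ X → ∀ k k' : ℕ, k' ≤ k → 1 ≤ k → ∀ l : ℕ, X ^ k ≤ l → (X : ℝ) ^ k' ≤ l ∧ (X : ℝ) ≤ l := by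
    intro X hX k k' hk' hk l hl
    have hX0 : (16 : ℝ) ≤ X := by exact_mod_cast hX
    have h1 : (X : ℝ) ^ k ≤ l := by exact_mod_cast hl
    refine ⟨(pow_le_pow_right₀ (by linarith) hk').trans h1, le_trans ?_ h1⟩
    calc (X : ℝ) = (X : ℝ) ^ 1 := (pow_one _).symm
      _ ≤ _ := pow_le_pow_right₀ (by linarith) hk
  refine ⟨?_, ?_, ?_⟩
  · intro I hI x ε hε
    obtain ⟨B, hB, hl1, hl2⟩ := Q207.NS.loc_NS K n g r hg hr
    obtain ⟨X₁, h⟩ := Q207.NS.nagao_law K (Ix g r) (J := OddSet n) (T := OddSet n) 3 B hB.le I hI id (fun S => mean r S.1)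
      (1 : Matrix (OddSet n) (OddSet n) ℝ) one_psd (fun j => by rw [Matrix.one_apply_eq]; exact one_pos)
      (fun i j hij => Matrix.one_apply_ne hij) (fun _ _ => 1) 1 (fun _ _ => by rw [abs_one]) (fun _ => 1)
      (fun _ => Q207.NS.mert_one K) (fun i j hij => by
        have hij' : i = j := hij
        rw [hij', Matrix.one_apply_eq]
        have h1 := Q207.NS.mert_one K
        simpa using h1) (fun a => x a.1 a.2) (ε / 2) (by positivity)
    obtain ⟨X₂, h2⟩ := hrank (ε / 2) (by positivity)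
    refine ⟨max 16 (max X₁ X₂), fun X hX b N L hL => ?_⟩
    have hX16 : 16 ≤ X := (le_max_left _ _).trans hX
    have hX1 : X₁ ≤ X := (le_max_left _ _).trans ((le_max_right _ _).trans hX)
    have hX2 : X₂ ≤ X := (le_max_right _ _).trans ((le_max_right _ _).trans hX)
    have hX0 : (16 : ℝ) ≤ X := by exact_mod_cast hX16
    have hk1 : 1 ≤ max 16 (max X₁ X₂) := (by norm_num : 1 ≤ 16).trans (le_max_left _ _)
    have hk2 : X₁ ≤ max 16 (max X₁ X₂) := (le_max_left _ _).trans (le_max_right _ _)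
    have hP0 : 0 < ∏ k, (L k : ℝ) := prod_pos fun k _ => by linarith [(hXL X hX16 _ _ hk2 hk1 _ (hL k)).2]
    have hne : ∀ S : OddSet n, S.1.Nonempty := fun S => card_pos.1 S.2.pos
    refine with_rank N L hP0 _ _ _ ε ?_ (h2 X hX2 b N L fun k => (hXL X hX16 _ _ hk2 hk1 _ (hL k)).2)
    rw [proportion_eq]
    have h3 := h X hX1 (fun j => b j) (basis_span b) N L (fun k => (hXL X hX16 _ _ hk2 hk1 _ (hL k)).1)
      (fun S v t => Q207.NS.valN {cS S.1} (fj t) v)
      (fun S => hl1 S.1 (hne S)) (fun S S' hSS => hl2 S.1 S'.1 (hne S) (hne S') fun h => hSS (Subtype.ext h))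
      ((box N L).filter fun ν => ∀ (S : OddSet n) (s : I), processS r (fj (combine b ν)) S X (s : ℝ≥0) ≤ x S s) (fun ν => by
        rw [mem_filter]
        refine and_congr Iff.rfl ?_
        rw [Prod.forall]
        refine forall_congr' fun S => forall_congr' fun s => ?_
        have h3 := sum_good (fj (combine b ν)) X (s : ℝ≥0) (by omega) (by exact_mod_cast (hI s s.2).2) (fun v => traceS (fj (combine b ν)) v S.1 1)
          ((S.1.card + 1) / 2) {cS S.1} (fun v hv => norm_S _ S v hv)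
        have e1 : processS r (fj (combine b ν)) S X (s : ℝ≥0) =
            ∑ v ∈ Q282.GK.SX K X, Q282.MN.cw X (s : ℝ≥0) (Ideal.absNorm v.asIdeal) * 1 * Q207.NS.valN {cS S.1} (fj (combine b ν)) v -
            Real.sqrt 2 * mean r S.1 * 1 * Real.sqrt (s : ℝ≥0) := by
          rw [← h3]
          unfold processS nagaoS
          ring
        rw [e1]
        exact Iff.rfl)
    rw [WJ_one] at h3
    exact h3
  · intro t m hm X Y
    exact kunneth (fj t) m hm X Y
  · intro m hm hmn
    have hσ : deviation n m = Real.sqrt (sig (types n (2 * m - 1))) := by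
      unfold deviation
      rw [sig_types hm]
      push_cast
      rfl
    have hpos := sig_pos m hm hmn
    have hσ0 : 0 < deviation n m := by rw [hσ]; exact Real.sqrt_pos.2 (by exact_mod_cast hpos)
    refine ⟨hσ0, ?_⟩
    intro I hI x ε hε
    obtain ⟨B, hB, hloc⟩ := Q207.NS.loc_N K n (types n (2 * m - 1)) (fun c hc => types_ne hm hc) g r hg hr hpos
    rw [← hσ, kap_eq m hm] at hloc
    obtain ⟨X₁, h⟩ := Q282.MN.mn_law K (Ix g r) 3 ((n - 1).choose (m - 1) * (∑ j, (r j : ℝ)) / deviation n m)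
      B hB.le I hI x (ε / 2) (by positivity)
    obtain ⟨X₂, h2⟩ := hrank (ε / 2) (by positivity)
    refine ⟨max 16 (max X₁ X₂), fun X hX b N L hL => ?_⟩
    have hX16 : 16 ≤ X := (le_max_left _ _).trans hX
    have hX1 : X₁ ≤ X := (le_max_left _ _).trans ((le_max_right _ _).trans hX)
    have hX2 : X₂ ≤ X := (le_max_right _ _).trans ((le_max_right _ _).trans hX)
    have hX0 : (16 : ℝ) ≤ X := by exact_mod_cast hX16
    have hk1 : 1 ≤ max 16 (max X₁ X₂) := (by norm_num : 1 ≤ 16).trans (le_max_left _ _)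
    have hk2 : X₁ ≤ max 16 (max X₁ X₂) := (le_max_left _ _).trans (le_max_right _ _)
    have hP0 : 0 < ∏ k, (L k : ℝ) := prod_pos fun k _ => by linarith [(hXL X hX16 _ _ hk2 hk1 _ (hL k)).2]
    refine with_rank N L hP0 _ _ _ ε ?_ (h2 X hX2 b N L fun k => (hXL X hX16 _ _ hk2 hk1 _ (hL k)).2)
    rw [proportion_eq]
    exact h X hX1 (fun j => b j) (basis_span b) N L (fun k => (hXL X hX16 _ _ hk2 hk1 _ (hL k)).1)
      (fun v t => Q207.NS.valN (types n (2 * m - 1)) (fj t) v / deviation n m) hloc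
      ((box N L).filter fun ν => ∀ s : I, process r (fj (combine b ν)) m X (s : ℝ≥0) ≤ x s) (fun ν => by
        rw [mem_filter]
        refine and_congr Iff.rfl (forall_congr' fun s => ?_)
        have h3 := sum_good (fj (combine b ν)) X (s : ℝ≥0) (by omega) (by exact_mod_cast (hI s s.2).2)
          (fun v => traceP (fj (combine b ν)) v (2 * m - 1) 1) m (types n (2 * m - 1)) (fun v hv => norm_M _ m hm v hv)
        have e1 : process r (fj (combine b ν)) m X (s : ℝ≥0) =
            ∑ v ∈ Q282.GK.SX K X, Q282.MN.cw X (s : ℝ≥0) (Ideal.absNorm v.asIdeal) *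
              (Q207.NS.valN (types n (2 * m - 1)) (fj (combine b ν)) v / deviation n m) -
            Real.sqrt 2 * ((n - 1).choose (m - 1) * (∑ j, (r j : ℝ)) / deviation n m) * Real.sqrt (s : ℝ≥0) := by
          have h4 : ∑ v ∈ Q282.GK.SX K X, Q282.MN.cw X (s : ℝ≥0) (Ideal.absNorm v.asIdeal) *
              (Q207.NS.valN (types n (2 * m - 1)) (fj (combine b ν)) v / deviation n m) =
              (∑ v ∈ Q282.GK.SX K X, Q282.MN.cw X (s : ℝ≥0) (Ideal.absNorm v.asIdeal) * 1 *
              Q207.NS.valN (types n (2 * m - 1)) (fj (combine b ν)) v) / deviation n m := by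
            rw [sum_div]
            exact sum_congr rfl fun v _ => by ring
          rw [h4, ← h3]
          unfold process nagaoM
          ring
        rw [e1]
        exact Iff.rfl)

end Pool.Agent.Results.MP_b8021b_nt.NagaoSumsProducts
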