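import Pool.Agent.Q283.GI.G6
import Pool.Agent.Q283.GI.G8

/-!
# Products of curves over multiquadratic fields, in all odd degrees, inside almost every integer

Let `K = ℚ(i)` and for `m ≥ 1` let `E_m : y² = x³ - (1 + i)² m² x` over `K`, the quadratic twist by `(1 + i) m` of `y² = x³ - x`,
with complex multiplication by `ℤ[i]`. Let the class consist of the squarefree `m` with all prime factors `1` or `3`
modulo `8`. For `m = (m_1, …, m_n)` and `e = (e_1, …, e_r)` in the class we look at ALL the varieties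
`X = E_(m_(σ 1)) × ⋯ × E_(m_(σ g))` (any `g`, any `σ : {1, …, g} → {1, …, n}`) over the number field
`F = K(√e_1, …, √e_r)`, of any dimension `g`. For `e` independent modulo squares `F` has the degree `2^r` over `K`, and the
`L`-function of `H^(2k-1)(X_F)` is the product over the Künneth components (for each factor one of the pieces `H⁰`,
`H^(1,0)`, `H^(0,1)`, `H²` of its cohomology) and over the subsets `U` of `{1, …, r}` of the Hecke `L`-functions of `K` of the
characters `ψ^a ψ̄^b`, twisted by the quadratic character of `(1 + i) ∏ m_(σ i) ∏_{U} e` (the first product over the factors with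
a piece of `H¹`; products modulo squares) and by a power of the norm; the Euler factors at all the primes are given in
`eulerFactor`. (For dependent `e` this product is a power of the `L`-function.)

For a member `N` of the class let `matrix N` be the symmetric matrix over `𝔽₂` indexed by the prime factors `p ≡ 1 mod 8` of
`N`, with the entry `1` or `0` at `(p, q)` if `q` is a nonresidue or a residue modulo `p`, and diagonal entry: `1` or
`0` if `x⁴ - 2 x² + 2` has no root or a root modulo `p`, plus the number of the other prime factors of `N` (also those which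
are `3` modulo `8`) which are nonresidues modulo `p`. `Nonsingular m e`: `matrix (∏_T m ∏_U e)` (products modulo
squares) is nonsingular for all `T ⊆ {1, …, n}` with an odd number of elements and all `U ⊆ {1, …, r}`. `Conclusions m e`: for
ALL `g`, `σ` and ALL `k ≥ 1` the `L`-function of `H^(2k-1)(X_F)` is entire and does not vanish at the centre `s = k`, and the
groups `E_(m_j)(F)` are finite, killed by `2^(r+1)`. So for `k = 1` both sides of the conjecture of Beilinson and
Bloch are zero for all these `X` over `F`, and for `k ≥ 2` the analytic side is zero.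

**Theorem.** (1) If `Nonsingular m e`, then `Conclusions m e`.
(2) There is ONE set `S` of positive integers of NATURAL DENSITY `1`, and of relative density `1` in the class, such that
for all large `D` in `S`, with `divs D` the divisors of `D` in the class and `κ = (1 - 1/2) (1 - 1/8) (1 - 1/32) ⋯ = 0.4194…`:
 (a) for different pairs `(N_j, T_j)`, `j ≤ M`, `N_j` in the class, `T_j` nonempty, and every set `Q` of indices the share of
     the tuples `d` of elements of `divs D` for which exactly the `matrix (N_j ∏_{T_j} d)`, `j ∈ Q`, are nonsingular is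
     within `ε` of `κ^|Q| (1 - κ)^(M - |Q|)`;
 (b) for `N^(l) = (N^(l)_1, …, N^(l)_n)`, `l ≤ M`, in the class, different (`∏_T N^(l) N^(l')` is not a square for all
     odd `T` and `l ≠ l'`), and `p = κ^(2^(n-1+r))`: for every set `Q` of indices the share of the pairs `(d, e)` of an `n`-tuple
     and an `r`-tuple for which all the `(N^(l) d, e)` are independent modulo squares (no two of the curves are isogenous
     over `F`, which has the degree `2^r` over `K`) and exactly for `l ∈ Q` nonsingular, is within `ε` of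
     `p^|Q| (1 - p)^(M - |Q|)`; so for a share `≥ p^M - ε` the conclusions hold for all the `M` families of products, and for a
     share `≥ 1 - (1 - p)^M - ε` for one of them at least; and the frequency of the nonsingular systems differs
     from `p` by `η` or more for a share of at most `2 exp (- η² M / 4) + ε`;
 (c) for fixed `N_1, …, N_n` in the class, independent (no product of an even number of them is a square), the simultaneous
     twists by `d`: the share of the `(d, e_1, …, e_r)` for which `(N_1 d, …, N_n d; e)` is nonsingular and `d, e_1, …, e_r`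
     are independent is within `ε` of `κ^(2^(n-1+r))`; so for a share `≥ κ^(2^(n-1+r)) - ε` the conclusions hold for all the products
     of the twists by `d` of the fixed curves, with any multiplicities, over `F`.
(3) There is an infinite sequence `d_1, d_2, …` in the class, independent modulo squares, such that the conclusions hold for
ALL the `m_j` and `e_i` which are products (modulo squares) of members of the sequence: for ALL the products `X` of the twists
by `(1 + i) P`, `P` in an infinite group, over ALL the number fields `K(√P_1, …, √P_r)`.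

The proofs: reduction of the matrix of symbols over `ℤ[i]` of a rational `N` to the rational matrix (quadratic reciprocity in `ℤ[i]`,
the two primes above `p ≡ 1 mod 8` are squares modulo each other); the criterion for one twist of the library
(helper690 and its team); the laws of project LP (all the linear patterns of divisors); the points over `F` by descent in the
tower and the theorem of Mordell and Weil.
-/

set_option autoImplicit false
set_option linter.all false

namespace Pool.Agent.Results.MP_b8021b_nt.ProductsInsideDivisors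

open Filter Finset
open scoped Classical Topology

/-! ### The curves and the L-functions -/

/-- `K = ℚ(i)` -/
abbrev K : Type := FractionRing GaussianInt

/-- The quadratic residue symbol `(D / p)` for a prime `p` of `ℤ[i]`: it is `0` if `p` divides `D`,
`1` if `D` is a nonzero square modulo `p`, and `-1` if `D` is not a square modulo `p`. -/
noncomputable def symbol (p D : GaussianInt) : ℤ :=
  if p ∣ D then 0 else if ∃ b : GaussianInt, p ∣ b * b - D then 1 else -1

/-- The primes `p` of `ℤ[i]` with `p ≡ 1 mod 2 + 2 i`: one generator for each prime ideal prime to `1 + i`. -/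
def Primary (p : GaussianInt) : Prop := Prime p ∧ (⟨2, 2⟩ : GaussianInt) ∣ p - 1

/-- The squarefree part of `n`. -/
def part (n : ℕ) : ℕ := ∏ p ∈ n.primeFactors.filter (fun p => n.factorization p % 2 = 1), p

/-- The Gaussian integer `(1 + i) m`. -/
def twist (m : ℕ) : GaussianInt := ⟨1, 1⟩ * (m : GaussianInt)

/-- For each of the `g` curves one of the pieces `H⁰`, `H^(1,0)`, `H^(0,1)`, `H²` of its cohomology, numbered by
`0, 1, 2, 3`: a Künneth component of the cohomology of the product. -/
abbrev Component (g : ℕ) : Type := Fin g → Fin 4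

/-- How often the piece `j` occurs. -/
def number {g : ℕ} (h : Component g) (j : Fin 4) : ℕ := (univ.filter fun i => h i = j).card

/-- The curves with a piece of `H¹`. -/
def middle {g : ℕ} (h : Component g) : Finset (Fin g) := univ.filter fun i => h i = 1 ∨ h i = 2

/-- The Künneth components of `H^w`. -/
def components (g w : ℕ) : Finset (Component g) :=
  univ.filter fun h => number h 1 + number h 2 + 2 * number h 3 = w

/-- The Euler factor at `p` of the Hecke character `ψ^a ψ̄^b` twisted by the quadratic character of `D` and by the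
`z`-th power of the norm, `ψ((p)) = p`: `1 - (D / p) p^a p̄^b N(p)^(z - s)`. -/
noncomputable def hecke (D : GaussianInt) (a b z : ℕ) (s : ℂ) (p : GaussianInt) : ℂ :=
  1 - (symbol p D : ℂ) * (p : ℂ) ^ a * (starRingEnd ℂ) (p : ℂ) ^ b * ((p.norm : ℤ) : ℂ) ^ ((z : ℂ) - s)

/-- The Euler factor at the primes above `p` of `H^w(X_F)`, `w` odd, for the product `X` of the curves `E_(m_1), …, E_(m_g)`
and `F = K(√e_1, …, √e_r)`, `e` independent modulo squares (otherwise a power of it). -/
noncomputable def eulerFactor {g r : ℕ} (m : Fin g → ℕ) (e : Fin r → ℕ) (w : ℕ) (s : ℂ)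
    (p : GaussianInt) : ℂ :=
  ∏ h ∈ components g w, ∏ U : Finset (Fin r),
    hecke (twist (part ((∏ i ∈ middle h, m i) * ∏ i ∈ U, e i))) (number h 1) (number h 2) (number h 3) s p

/-- `L` is the `L`-function of `H^(2k-1)(X_F)`: an entire function which is the product of the inverses of the Euler factors
for `Re s > k + 1/2`. -/
def IsLFunction {g r : ℕ} (m : Fin g → ℕ) (e : Fin r → ℕ) (k : ℕ) (L : ℂ → ℂ) : Prop :=
  Differentiable ℂ L ∧ ∀ s : ℂ, (k : ℝ) + 1 / 2 < s.re →
    HasProd (fun p : {p : GaussianInt // Primary p} => (eulerFactor m e (2 * k - 1) s p.1)⁻¹) (L s)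

/-- For ALL `k ≥ 1` the `L`-function of `H^(2k-1)(X_F)` does not vanish at `s = k`. -/
def Nonvanishing {g r : ℕ} (m : Fin g → ℕ) (e : Fin r → ℕ) : Prop :=
  ∀ k : ℕ, 1 ≤ k → ∃ L : ℂ → ℂ, IsLFunction m e k L ∧ L k ≠ 0

/-- The curve `y² = x³ - D² x`. -/
def curve {F : Type} [Field F] (D : F) : WeierstrassCurve F := ⟨0, 0, 0, -D ^ 2, 0⟩

/-- The image of `(1 + i) m` in an extension of `K`. -/
noncomputable def image (F : Type) [Field F] [Algebra K F] (m : ℕ) : F :=
  algebraMap K F (algebraMap GaussianInt K (twist m))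

/-- For every field `F = K(√e_1, …, √e_r)` the groups `E_(m_j)(F)` are finite and killed by `2^(r+1)`. -/
def FinitePoints {n r : ℕ} (m : Fin n → ℕ) (e : Fin r → ℕ) : Prop :=
  ∀ (F : Type) [Field F] [Algebra K F] (s : Fin r → F), (∀ i, s i ^ 2 = (e i : F)) →
    IntermediateField.adjoin K (Set.range s) = ⊤ → ∀ j, Finite (curve (image F (m j))).toAffine.Point ∧
      ∀ P : (curve (image F (m j))).toAffine.Point, 2 ^ (r + 1) • P = 0

/-- All the products of the curves, with any multiplicities, in all odd degrees; and the points. -/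
def Conclusions {n r : ℕ} (m : Fin n → ℕ) (e : Fin r → ℕ) : Prop :=
  (∀ (g : ℕ) (σ : Fin g → Fin n), Nonvanishing (fun i => m (σ i)) e) ∧ FinitePoints m e

/-! ### The class and the matrices -/

/-- Squarefree, all prime factors `1` or `3` modulo `8`. -/
def Class (d : ℕ) : Prop := Squarefree d ∧ ∀ p : ℕ, p.Prime → p ∣ d → p % 8 = 1 ∨ p % 8 = 3

/-- `1` if `q` is not a square modulo `p`, otherwise `0`. -/
noncomputable def nonresidue (p q : ℕ) : ZMod 2 := if IsSquare (q : ZMod p) then 0 else 1

/-- `1` if `x⁴ - 2 x² + 2` has no root modulo `p` (that is, `1 + i` is not a square modulo the primes of `ℤ[i]` above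
`p ≡ 1 mod 8`), otherwise `0`. -/
noncomputable def quartic (p : ℕ) : ZMod 2 := if ∃ x : ZMod p, x ^ 4 - 2 * x ^ 2 + 2 = 0 then 0 else 1

/-- The prime factors of `N` which are `1` modulo `8`. -/
def active (N : ℕ) : Finset ℕ := N.primeFactors.filter fun p => p % 8 = 1

/-- The matrix of `N`. -/
noncomputable def matrix (N : ℕ) : Matrix (active N) (active N) (ZMod 2) := Matrix.of fun p q =>
  if p = q then quartic p + ∑ r ∈ N.primeFactors.erase p, nonresidue p r else nonresidue p q

/-- All the matrices which occur for the products of the `E_(m_j)` over `K(√e_1, …, √e_r)` are nonsingular. -/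
def Nonsingular {n r : ℕ} (m : Fin n → ℕ) (e : Fin r → ℕ) : Prop :=
  ∀ (T : Finset (Fin n)) (U : Finset (Fin r)), Odd T.card →
    (matrix (part ((∏ j ∈ T, m j) * ∏ i ∈ U, e i))).det ≠ 0

/-- **(1)** The criterion. -/
def Criterion : Prop := ∀ (n r : ℕ) (m : Fin n → ℕ) (e : Fin r → ℕ), (∀ j, Class (m j)) →
  (∀ i, Class (e i)) → Nonsingular m e → Conclusions m e

/-! ### The laws -/

/-- The number `κ = (1 - 1/2) (1 - 1/8) (1 - 1/32) ⋯`. -/
noncomputable def κ : ℝ := ∏' i : ℕ, (1 - (1 / 2 : ℝ) ^ (2 * i + 1))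

/-- The `n`-tuples of elements of the class which divide `D`. -/
noncomputable def tuples (n D : ℕ) : Finset (Fin n → ℕ) := Fintype.piFinset fun _ => D.divisors.filter Class

/-- The pairs of an `n`-tuple and an `r`-tuple. -/
noncomputable def pairs (n r D : ℕ) : Finset ((Fin n → ℕ) × (Fin r → ℕ)) := tuples n D ×ˢ tuples r D

/-- The share of the elements of `I` with the property `P`. -/
noncomputable def share {E : Type} (I : Finset E) (P : E → Prop) : ℝ := ((I.filter P).card : ℝ) / I.card

/-- The number of the elements of `{1, …, X}` with the property `P`. -/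
noncomputable def count (P : ℕ → Prop) (X : ℕ) : ℕ := ((Icc 1 X).filter P).card

/-- The tuple of the `N_j d_j`, modulo squares. -/
def times {n : ℕ} (N d : Fin n → ℕ) : Fin n → ℕ := fun j => part (N j * d j)

/-- The `m_j` and the `e_i` are independent modulo squares. -/
def Independent {n r : ℕ} (m : Fin n → ℕ) (e : Fin r → ℕ) : Prop :=
  ∀ (T : Finset (Fin n)) (U : Finset (Fin r)), (T.Nonempty ∨ U.Nonempty) →
    ¬ IsSquare ((∏ j ∈ T, m j) * ∏ i ∈ U, e i)

/-- **(2a)** The linear forms. -/
def Forms (S : ℕ → Prop) : Prop :=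
  ∀ (M n : ℕ) (N : Fin M → ℕ) (T : Fin M → Finset (Fin n)), (∀ j, Class (N j)) →
    (∀ j, (T j).Nonempty) → (∀ j l, j ≠ l → ¬ (N j = N l ∧ T j = T l)) → ∀ ε : ℝ, 0 < ε →
    ∃ D₀ : ℕ, ∀ D : ℕ, D₀ ≤ D → S D → ∀ Q : Finset (Fin M),
      |share (tuples n D) (fun d => ∀ j, ((matrix (part (N j * ∏ i ∈ T j, d i))).det ≠ 0 ↔ j ∈ Q)) -
        κ ^ Q.card * (1 - κ) ^ (M - Q.card)| ≤ ε

/-- **(2b)** The products of the twists by independent `d_1, …, d_n`. -/
def Products (S : ℕ → Prop) : Prop :=
  ∀ (M n r : ℕ) (N : Fin M → Fin n → ℕ), 0 < n → (∀ l j, Class (N l j)) →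
    (∀ l l', l ≠ l' → ∀ T : Finset (Fin n), Odd T.card →
      ¬ IsSquare ((∏ j ∈ T, N l j) * ∏ j ∈ T, N l' j)) → ∀ ε : ℝ, 0 < ε →
    ∃ D₀ : ℕ, ∀ D : ℕ, D₀ ≤ D → S D →
      (∀ Q : Finset (Fin M),
        |share (pairs n r D) (fun x => (∀ l, Independent (times (N l) x.1) x.2) ∧
            ∀ l, (Nonsingular (times (N l) x.1) x.2 ↔ l ∈ Q)) -
          (κ ^ 2 ^ (n - 1 + r)) ^ Q.card * (1 - κ ^ 2 ^ (n - 1 + r)) ^ (M - Q.card)| ≤ ε) ∧
      (κ ^ 2 ^ (n - 1 + r)) ^ M - ε ≤ share (pairs n r D) (fun x =>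
        (∀ l, Independent (times (N l) x.1) x.2) ∧ ∀ l, Conclusions (times (N l) x.1) x.2) ∧
      1 - (1 - κ ^ 2 ^ (n - 1 + r)) ^ M - ε ≤ share (pairs n r D) (fun x =>
        (∀ l, Independent (times (N l) x.1) x.2) ∧ ∃ l, Conclusions (times (N l) x.1) x.2) ∧
      (0 < M → ∀ η : ℝ, 0 < η → share (pairs n r D) (fun x =>
        η ≤ |((univ.filter fun l => Nonsingular (times (N l) x.1) x.2).card : ℝ) / M -
          κ ^ 2 ^ (n - 1 + r)|) ≤ 2 * Real.exp (-(η ^ 2 * M / 4)) + ε)

/-- The tuple without its first element. -/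
def tail {r : ℕ} (d : Fin (r + 1) → ℕ) : Fin r → ℕ := fun i => d i.succ

/-- **(2c)** The products of the simultaneous twists by `d = d_0` of fixed curves, over `K(√d_1, …, √d_r)`. -/
def Simultaneous (S : ℕ → Prop) : Prop :=
  ∀ (n r : ℕ) (N : Fin n → ℕ), 0 < n → (∀ j, Class (N j)) →
    (∀ T : Finset (Fin n), T.Nonempty → Even T.card → ¬ IsSquare (∏ j ∈ T, N j)) → ∀ ε : ℝ, 0 < ε →
    ∃ D₀ : ℕ, ∀ D : ℕ, D₀ ≤ D → S D →
      |share (tuples (r + 1) D) (fun d => (∀ T : Finset (Fin (r + 1)), T.Nonempty →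
          ¬ IsSquare (∏ i ∈ T, d i)) ∧ Nonsingular (fun j => part (N j * d 0)) (tail d)) -
        κ ^ 2 ^ (n - 1 + r)| ≤ ε ∧
      κ ^ 2 ^ (n - 1 + r) - ε ≤ share (tuples (r + 1) D) (fun d => (∀ T : Finset (Fin (r + 1)),
        T.Nonempty → ¬ IsSquare (∏ i ∈ T, d i)) ∧ Conclusions (fun j => part (N j * d 0)) (tail d))

/-- **(3)** The infinite group. -/
def InfiniteGroup : Prop := ∃ d : ℕ → ℕ, (∀ k, Class (d k)) ∧
  (∀ T : Finset ℕ, T.Nonempty → ¬ IsSquare (∏ k ∈ T, d k)) ∧
  ∀ (n r : ℕ) (A : Fin n → Finset ℕ) (B : Fin r → Finset ℕ),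
    Conclusions (fun j => part (∏ k ∈ A j, d k)) (fun i => part (∏ k ∈ B i, d k))

section proof

open _root_.Q283.GI _root_.Q283.LP
open _root_.Q155.NL (Cl Alm)
open _root_.Q283.GS (al)

lemma class_iff (d : ℕ) : Class d ↔ G8 d := Iff.rfl

lemma part_eq (n : ℕ) : part n = sqn n := rfl

lemma quartic_eq (p : ℕ) : quartic p = fG p := by
  unfold quartic fG
  congr 1

lemma nonresidue_eq (p q : ℕ) : nonresidue p q = Pool.Agent.Y703.CQ.nr p q := by
  unfold nonresidue Pool.Agent.Y703.CQ.nr
  congr 1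

lemma matrix_eq (N : ℕ) : matrix N = MG N := by
  refine Matrix.ext fun p q => ?_
  show (if p = q then quartic p + ∑ r ∈ N.primeFactors.erase p, nonresidue p r else nonresidue p q) =
    (if p = q then fG p + ∑ r ∈ N.primeFactors.erase p, Pool.Agent.Y703.CQ.nr p r
      else Pool.Agent.Y703.CQ.nr p q)
  simp only [quartic_eq, nonresidue_eq]

lemma det_iff (N : ℕ) : (matrix N).det ≠ 0 ↔ gr N = 0 := by
  rw [← det_MG]
  refine not_congr (Eq.congr_left ?_)
  show (matrix N).det = Matrix.det (n := active N) (MG N)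
  rw [← matrix_eq]

lemma nonsing_iff {n r : ℕ} (m : Fin n → ℕ) (e : Fin r → ℕ) : Nonsingular m e ↔ Sys m e :=
  forall_congr' fun T => forall_congr' fun U => imp_congr Iff.rfl (det_iff _)

/-! ### The criterion -/

open Pool.Agent.Y690.PP.Fn (GoodP GoodL)

lemma class_sqn {n r : ℕ} {m : Fin n → ℕ} {e : Fin r → ℕ} (hm : ∀ j, Class (m j))
    (he : ∀ i, Class (e i)) (T : Finset (Fin n)) (U : Finset (Fin r)) :
    G8 (sqn ((∏ j ∈ T, m j) * ∏ i ∈ U, e i)) := by
  have h1 : G8 (sqn (1 * ∏ j ∈ T, m j)) := G8_sqn (N := 1) G8_one hm T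
  rw [one_mul] at h1
  have h2 := G8_sqn h1 he U
  rwa [sqn_sqn (Finset.prod_ne_zero_iff.2 fun j _ => (hm j).1.ne_zero)
    (Finset.prod_ne_zero_iff.2 fun i _ => (he i).1.ne_zero)] at h2

/-- one Künneth component -/
lemma comp_L {M a b z k : ℕ} (h : GoodL (twist M)) (hk : 1 ≤ k) (hw : a + b + 2 * z = 2 * k - 1) :
    ∃ L : ℂ → ℂ, Differentiable ℂ L ∧ (∀ s : ℂ, (k : ℝ) + 1 / 2 < s.re →
      HasProd (fun p : {p : GaussianInt // Primary p} => (hecke (twist M) a b z s p.1)⁻¹) (L s)) ∧
      L k ≠ 0 := by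
  obtain ⟨L, ⟨h1, h2⟩, h3⟩ := h (k - z) a b (by omega) (by omega)
  refine ⟨fun s => L (s - z), h1.comp (differentiable_id.sub_const _), fun s hs => ?_, ?_⟩
  · have hab : ((a : ℝ) + b) = 2 * k - 1 - 2 * z := by
      have h4 : a + b + 2 * z + 1 = 2 * k := by omega
      have h5 : ((a : ℝ) + b + 2 * z + 1) = 2 * k := by exact_mod_cast h4
      linarith
    have h4 := h2 (s - z) (by
      rw [hab, Complex.sub_re, Complex.natCast_re]
      linarith)
    rw [neg_sub] at h4
    exact h4
  · have e : ((k - z : ℕ) : ℂ) = (k : ℂ) - z := Nat.cast_sub (by omega)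
    rw [e] at h3
    exact h3

/-- the L-function of the product -/
lemma prod_L {g r : ℕ} {m : Fin g → ℕ} {e : Fin r → ℕ} {k : ℕ} (hk : 1 ≤ k)
    (h : ∀ c ∈ components g (2 * k - 1), ∀ U : Finset (Fin r),
      GoodL (twist (part ((∏ i ∈ middle c, m i) * ∏ i ∈ U, e i)))) :
    ∃ L : ℂ → ℂ, IsLFunction m e k L ∧ L k ≠ 0 := by
  have hc : ∀ c ∈ components g (2 * k - 1), number c 1 + number c 2 + 2 * number c 3 = 2 * k - 1 :=
    fun c hc => (mem_filter.1 hc).2
  have h1 : ∀ (c : Component g) (U : Finset (Fin r)), ∃ L : ℂ → ℂ, c ∈ components g (2 * k - 1) →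
      Differentiable ℂ L ∧ (∀ s : ℂ, (k : ℝ) + 1 / 2 < s.re →
      HasProd (fun p : {p : GaussianInt // Primary p} =>
        (hecke (twist (part ((∏ i ∈ middle c, m i) * ∏ i ∈ U, e i))) (number c 1) (number c 2)
          (number c 3) s p.1)⁻¹) (L s)) ∧ L k ≠ 0 := by
    intro c U
    by_cases hcm : c ∈ components g (2 * k - 1)
    · obtain ⟨L, hL⟩ := comp_L (h c hcm U) hk (hc c hcm)
      exact ⟨L, fun _ => hL⟩
    · exact ⟨0, fun h => absurd h hcm⟩
  choose L hL using h1
  refine ⟨fun s => ∏ c ∈ components g (2 * k - 1), ∏ U : Finset (Fin r), L c U s, ⟨?_, ?_⟩, ?_⟩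
  · refine Differentiable.fun_finset_prod fun c hc => ?_
    exact Differentiable.fun_finset_prod fun U _ => (hL c U hc).1
  · intro s hs
    have h2 := hasProd_prod (s := components g (2 * k - 1)) fun c hc =>
      hasProd_prod (s := (univ : Finset (Finset (Fin r)))) fun U _ => (hL c U hc).2.1 s hs
    refine Eq.mp (congrArg (fun f => HasProd f (∏ c ∈ components g (2 * k - 1),
      ∏ U : Finset (Fin r), L c U s)) (funext fun p => ?_)) h2
    unfold eulerFactor
    rw [← Finset.prod_inv_distrib]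
    refine prod_congr rfl fun c _ => ?_
    rw [← Finset.prod_inv_distrib]
  · exact prod_ne_zero_iff.2 fun c hc => prod_ne_zero_iff.2 fun U _ => (hL c U hc).2.2

lemma odd_middle {g k : ℕ} (hk : 1 ≤ k) {c : Component g} (hc : c ∈ components g (2 * k - 1)) :
    Odd (middle c).card := by
  have h1 : number c 1 + number c 2 + 2 * number c 3 = 2 * k - 1 := (mem_filter.1 hc).2
  have h2 : (middle c).card = number c 1 + number c 2 := by
    unfold middle number
    rw [filter_or, card_union_of_disjoint]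
    rw [Finset.disjoint_left]
    intro x hx hx'
    rw [mem_filter] at hx hx'
    rw [hx.2] at hx'
    exact absurd hx'.2 (by decide)
  rw [h2, Nat.odd_iff]
  omega

/-- **(1)** -/
theorem criterion : Criterion := by
  intro n r m e hm he hN
  have hS := (nonsing_iff m e).1 hN
  have hm0 : ∀ j, m j ≠ 0 := fun j => (hm j).1.ne_zero
  have he0 : ∀ i, e i ≠ 0 := fun i => (he i).1.ne_zero
  have good : ∀ (T : Finset (Fin n)) (U : Finset (Fin r)), Odd T.card →
      GoodP (Q283.GB.lm * ((sqn ((∏ j ∈ T, m j) * ∏ i ∈ U, e i) : ℕ) : GaussianInt)) ∧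
      GoodL (Q283.GB.lm * ((sqn ((∏ j ∈ T, m j) * ∏ i ∈ U, e i) : ℕ) : GaussianInt)) :=
    fun T U hT => good8 (class_sqn hm he T U) (hS T U hT)
  refine ⟨fun g σ k hk => prod_L hk fun c hc U => ?_, ?_⟩
  · obtain ⟨T, h1, h2⟩ := sqn_sigma σ hm0 (middle c) (∏ i ∈ U, e i)
      (prod_ne_zero_iff.2 fun i _ => he0 i)
    have h3 : part ((∏ i ∈ middle c, m (σ i)) * ∏ i ∈ U, e i) =
        sqn ((∏ j ∈ T, m j) * ∏ i ∈ U, e i) := h2
    rw [h3]
    exact (good T U (h1.2 (odd_middle hk hc))).2
  · intro F _ _ s hs htop j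
    have h1 := points (hm0 j) he0 (fun U => ?_) hs htop
    · rw [add_comm 1 r] at h1
      exact h1
    · have h2 := (good {j} U (by rw [card_singleton]; exact odd_one)).1
      rwa [prod_singleton] at h2

/-! ### The laws -/

lemma tuples_eq (n D : ℕ) : tuples n D = IG n D := rfl

lemma pairs_eq (n r D : ℕ) : pairs n r D = JG n r D := rfl

lemma share_eq {E : Type} (I : Finset E) (P : E → Prop) : share I P = cE I P / I.card := rfl

lemma abs_share {E : Type} {I : Finset E} (hpos : 0 < (I.card : ℝ)) {P : E → Prop} {w ε : ℝ}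
    (h : |cE I P - w * I.card| ≤ ε * I.card) : |share I P - w| ≤ ε := by
  have h5 : share I P - w = (cE I P - w * I.card) / (I.card : ℝ) := by
    rw [share_eq]
    field_simp
  rw [h5, abs_div, abs_of_pos hpos, div_le_iff₀ hpos]
  exact h

lemma share_le {E : Type} {I : Finset E} (hpos : 0 < (I.card : ℝ)) {P : E → Prop} {ε : ℝ}
    (h : cE I P ≤ ε * I.card) : share I P ≤ ε := by
  rw [share_eq, div_le_iff₀ hpos]
  exact h

lemma share_mono {E : Type} {I : Finset E} {P Q : E → Prop} (h : ∀ d ∈ I, P d → Q d) :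
    share I P ≤ share I Q := by
  rw [share_eq, share_eq]
  exact div_le_div_of_nonneg_right (cE_mono h) (Nat.cast_nonneg _)

lemma share_or {E : Type} {I : Finset E} (P Q : E → Prop) :
    share I (fun d => P d ∨ Q d) ≤ share I P + share I Q := by
  rw [share_eq, share_eq, share_eq, ← add_div]
  exact div_le_div_of_nonneg_right (cE_or P Q) (Nat.cast_nonneg _)

lemma share_not {E : Type} {I : Finset E} (hpos : 0 < (I.card : ℝ)) (P : E → Prop) :
    share I P = 1 - share I fun d => ¬ P d := by
  have h1 := cE_not (I := I) P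
  rw [share_eq, share_eq, eq_sub_iff_add_eq, ← add_div, h1, div_self hpos.ne']

lemma κ_eq : al 0 = κ := by
  have h1 : al 0 = Y703.CQ.c2 * Y697.PQ.cf 0 := rfl
  rw [h1, show Y697.PQ.cf 0 = 1 from rfl, mul_one]
  rfl

lemma κ_bd : 0.4194 < κ ∧ κ < 0.4195 := Pool.Agent.Q274.BKC.kappa_bounds

lemma IG_pos {n D : ℕ} (hD : D ≠ 0) : 0 < ((IG n D).card : ℝ) := by
  have h1 := IP_pos (Φ := ρ8.Φ) (par := fun _ => 0) (n := n) hD
  rwa [IG_eq] at h1

lemma JG_pos {n r D : ℕ} (hD : D ≠ 0) : 0 < ((JG n r D).card : ℝ) := by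
  rw [JG_card]
  exact IG_pos hD

lemma class_of {n D : ℕ} (hD : D ≠ 0) {d : Fin n → ℕ} (h : d ∈ IG n D) (l : Fin n) : Class (d l) :=
  ((mem_IG hD).1 h l).1

lemma class_times {n : ℕ} {N d : Fin n → ℕ} (hN : ∀ j, Class (N j)) (hd : ∀ j, Class (d j))
    (j : Fin n) : Class (times N d j) := by
  have h1 := G8_sqn (n := n) (hN j) hd {j}
  rwa [prod_singleton] at h1

/-- (2a) -/
theorem forms_of {S : ℕ → Prop} (h : LawP ρ8.Φ fG (fun _ => 0) S) : Forms S := by
  intro M n N T hN hT hd ε hε
  have h1 := lawP_ty h (Fin M) N T (fun j => (cl8 _).2 (hN j)) hT hd hε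
  obtain ⟨D₁, hD₁⟩ := eventually_atTop.1 (h1.and (eventually_ne_atTop 0))
  refine ⟨D₁, fun D hD hS Q => ?_⟩
  obtain ⟨p0, hD0⟩ := hD₁ D hD
  have h2 := p0 hS Q
  rw [IG_eq, κ_eq, Fintype.card_fin] at h2
  have h3 := abs_share (IG_pos hD0) h2
  have e : (fun d : Fin n → ℕ => ∀ j, ((matrix (part (N j * ∏ i ∈ T j, d i))).det ≠ 0 ↔ j ∈ Q)) =
      fun d => ∀ j, (gdf ρ8.Φ fG (N j) (T j) d ↔ j ∈ Q) := by
    funext d
    exact propext (forall_congr' fun j => iff_congr (det_iff _) Iff.rfl)
  rw [e]
  exact h3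

/-- (2b) -/
theorem products_of {S : ℕ → Prop} (h : LawP ρ8.Φ fG (fun _ => 0) S) : Products S := by
  intro M n r N hn hN hinj ε hε
  have h1 := sys_pat (r := r) h hn N hN hinj (ε := ε / 2) (by positivity)
  have h2 := sys_dep (r := r) h N hN (ε := ε / 2) (by positivity)
  obtain ⟨D₁, hD₁⟩ := eventually_atTop.1 (h1.and (h2.and (eventually_ne_atTop 0)))
  obtain ⟨D₂, hD₂⟩ : ∃ D₂ : ℕ, ∀ D, D₂ ≤ D → 0 < M → S D → ∀ η : ℝ, 0 < η →
      cE (JG n r D) (fun x => η ≤ |(nJ (Fin M) (fun l => Sys (sy (N l) x.1) x.2) : ℝ) / M -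
        al 0 ^ 2 ^ (n - 1 + r)|) ≤ (2 * Real.exp (-(η ^ 2 * M / 4)) + ε) * (JG n r D).card := by
    by_cases hM : 0 < M
    · obtain ⟨D₂, hD₂⟩ := eventually_atTop.1 (sys_lln (r := r) h hn N hN hinj hM hε)
      exact ⟨D₂, fun D hD _ => hD₂ D hD⟩
    · exact ⟨0, fun D _ h => absurd h hM⟩
  refine ⟨max D₁ D₂, fun D hD hS => ?_⟩
  obtain ⟨p0, p2, hD0⟩ := hD₁ D ((le_max_left _ _).trans hD)
  have q0 := hD₂ D ((le_max_right _ _).trans hD)
  have hpos := JG_pos (n := n) (r := r) hD0
  have eI : ∀ l (x : (Fin n → ℕ) × (Fin r → ℕ)), Independent (times (N l) x.1) x.2 ↔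
      Nsq (sy (N l) x.1) x.2 := fun l x => Iff.rfl
  have eS : ∀ l (x : (Fin n → ℕ) × (Fin r → ℕ)), Nonsingular (times (N l) x.1) x.2 ↔
      Sys (sy (N l) x.1) x.2 := fun l x => nonsing_iff _ _
  have hCon : ∀ x ∈ JG n r D, ∀ l, Nonsingular (times (N l) x.1) x.2 →
      Conclusions (times (N l) x.1) x.2 := by
    intro x hx l hl
    obtain ⟨h3, h4⟩ := mem_product.1 hx
    exact criterion n r _ _ (class_times (hN l) (class_of hD0 h3)) (class_of hD0 h4) hl
  have r0 : share (JG n r D) (fun x => ¬ ∀ l, Independent (times (N l) x.1) x.2) ≤ ε / 2 :=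
    share_le hpos (p2 hS)
  have r1 : ∀ Q : Finset (Fin M), |share (JG n r D) (fun x =>
      ∀ l, (Nonsingular (times (N l) x.1) x.2 ↔ l ∈ Q)) -
        (κ ^ 2 ^ (n - 1 + r)) ^ Q.card * (1 - κ ^ 2 ^ (n - 1 + r)) ^ (M - Q.card)| ≤ ε / 2 := by
    intro Q
    have h3 := p0 hS Q
    rw [κ_eq] at h3
    have h4 := abs_share hpos h3
    have e : (fun x : (Fin n → ℕ) × (Fin r → ℕ) => ∀ l, (Nonsingular (times (N l) x.1) x.2 ↔ l ∈ Q)) =
        fun x => ∀ l, (Sys (sy (N l) x.1) x.2 ↔ l ∈ Q) := by
      funext x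
      exact propext (forall_congr' fun l => iff_congr (eS l x) Iff.rfl)
    rw [e]
    exact h4
  have r2 : ∀ Q : Finset (Fin M), |share (JG n r D) (fun x =>
      (∀ l, Independent (times (N l) x.1) x.2) ∧
        ∀ l, (Nonsingular (times (N l) x.1) x.2 ↔ l ∈ Q)) -
        (κ ^ 2 ^ (n - 1 + r)) ^ Q.card * (1 - κ ^ 2 ^ (n - 1 + r)) ^ (M - Q.card)| ≤ ε := by
    intro Q
    have h3 := r1 Q
    have h5 : share (JG n r D) (fun x => (∀ l, Independent (times (N l) x.1) x.2) ∧
        ∀ l, (Nonsingular (times (N l) x.1) x.2 ↔ l ∈ Q)) ≤ share (JG n r D) (fun x =>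
        ∀ l, (Nonsingular (times (N l) x.1) x.2 ↔ l ∈ Q)) := share_mono fun x _ hx => hx.2
    have h6 : share (JG n r D) (fun x => ∀ l, (Nonsingular (times (N l) x.1) x.2 ↔ l ∈ Q)) ≤
        share (JG n r D) (fun x => (∀ l, Independent (times (N l) x.1) x.2) ∧
        ∀ l, (Nonsingular (times (N l) x.1) x.2 ↔ l ∈ Q)) +
        share (JG n r D) (fun x => ¬ ∀ l, Independent (times (N l) x.1) x.2) := by
      refine le_trans (share_mono fun x _ hx => ?_) (share_or _ _)
      by_cases h7 : ∀ l, Independent (times (N l) x.1) x.2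
      · exact Or.inl ⟨h7, hx⟩
      · exact Or.inr h7
    rw [abs_le] at h3 ⊢
    constructor <;> linarith
  refine ⟨r2, ?_, ?_, fun hM η hη => ?_⟩
  · have h3 := (abs_le.1 (r2 univ)).1
    rw [card_univ, Fintype.card_fin, Nat.sub_self, pow_zero, mul_one] at h3
    have h4 : share (JG n r D) (fun x => (∀ l, Independent (times (N l) x.1) x.2) ∧
        ∀ l, (Nonsingular (times (N l) x.1) x.2 ↔ l ∈ univ)) ≤ share (JG n r D) (fun x =>
        (∀ l, Independent (times (N l) x.1) x.2) ∧ ∀ l, Conclusions (times (N l) x.1) x.2) :=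
      share_mono fun x hx hxP => ⟨hxP.1, fun l => hCon x hx l ((hxP.2 l).2 (mem_univ l))⟩
    show _ ≤ share (JG n r D) _
    linarith
  · have h3 := (abs_le.1 (r1 ∅)).2
    rw [card_empty, pow_zero, one_mul, Nat.sub_zero] at h3
    have h4 := share_not hpos (fun x => (∀ l, Independent (times (N l) x.1) x.2) ∧
      ∃ l, Conclusions (times (N l) x.1) x.2)
    have h5 : share (JG n r D) (fun x => ¬ ((∀ l, Independent (times (N l) x.1) x.2) ∧
        ∃ l, Conclusions (times (N l) x.1) x.2)) ≤
        share (JG n r D) (fun x => ∀ l, (Nonsingular (times (N l) x.1) x.2 ↔ l ∈ (∅ : Finset (Fin M)))) +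
        share (JG n r D) (fun x => ¬ ∀ l, Independent (times (N l) x.1) x.2) := by
      refine le_trans (share_mono fun x hx hxP => ?_) (share_or _ _)
      by_cases hI : ∀ l, Independent (times (N l) x.1) x.2
      · exact Or.inl fun l => iff_of_false (fun hG => hxP ⟨hI, l, hCon x hx l hG⟩) (notMem_empty l)
      · exact Or.inr hI
    show _ ≤ share (JG n r D) _
    linarith
  · have h3 := q0 hM hS η hη
    rw [κ_eq] at h3
    have h4 := share_le hpos h3
    have e : (fun x : (Fin n → ℕ) × (Fin r → ℕ) =>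
        η ≤ |((univ.filter fun l => Nonsingular (times (N l) x.1) x.2).card : ℝ) / M -
          κ ^ 2 ^ (n - 1 + r)|) = fun x => η ≤ |(nJ (Fin M) (fun l => Sys (sy (N l) x.1) x.2) : ℝ) / M -
        κ ^ 2 ^ (n - 1 + r)| := by
      funext x
      have e1 : (univ.filter fun l => Nonsingular (times (N l) x.1) x.2).card =
          nJ (Fin M) (fun l => Sys (sy (N l) x.1) x.2) := by
        unfold nJ
        exact fcc fun l _ => eS l x
      rw [e1]
    show share (JG n r D) _ ≤ _
    rw [e]
    exact h4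

/-- (2c) -/
theorem simultaneous_of {S : ℕ → Prop} (h : LawP ρ8.Φ fG (fun _ => 0) S) : Simultaneous S := by
  intro n r N hn hN hinj ε hε
  obtain ⟨D₁, hD₁⟩ := eventually_atTop.1 ((st_all (r := r) h hn hN hinj hε).and
    (eventually_ne_atTop 0))
  refine ⟨D₁, fun D hD hS => ?_⟩
  obtain ⟨p0, hD0⟩ := hD₁ D hD
  have h2 := p0 hS
  rw [κ_eq] at h2
  have h3 := abs_share (IG_pos hD0) h2
  have e : (fun d : Fin (r + 1) → ℕ => (∀ T : Finset (Fin (r + 1)), T.Nonempty →
          ¬ IsSquare (∏ i ∈ T, d i)) ∧ Nonsingular (fun j => part (N j * d 0)) (tail d)) =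
      fun d => IdN d ∧ Sys (st N (d 0)) (fun i : Fin r => d i.succ) := by
    funext d
    exact propext (and_congr Iff.rfl (nonsing_iff _ _))
  have h5 : |share (tuples (r + 1) D) (fun d => (∀ T : Finset (Fin (r + 1)), T.Nonempty →
          ¬ IsSquare (∏ i ∈ T, d i)) ∧ Nonsingular (fun j => part (N j * d 0)) (tail d)) -
        κ ^ 2 ^ (n - 1 + r)| ≤ ε := by
    rw [e]
    exact h3
  refine ⟨h5, ?_⟩
  have h6 : share (tuples (r + 1) D) (fun d => (∀ T : Finset (Fin (r + 1)), T.Nonempty →
          ¬ IsSquare (∏ i ∈ T, d i)) ∧ Nonsingular (fun j => part (N j * d 0)) (tail d)) ≤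
      share (tuples (r + 1) D) (fun d => (∀ T : Finset (Fin (r + 1)), T.Nonempty →
          ¬ IsSquare (∏ i ∈ T, d i)) ∧ Conclusions (fun j => part (N j * d 0)) (tail d)) := by
    refine share_mono fun d hd hdP => ⟨hdP.1, ?_⟩
    have hC : ∀ l, Class (d l) := class_of hD0 hd
    refine criterion n r _ _ (fun j => ?_) (fun i => hC _) hdP.2
    have h7 := G8_sqn (n := r + 1) (hN j) hC {0}
    rwa [prod_singleton] at h7
  linarith [(abs_le.1 h5).1]

/-- (3) -/
theorem infinite_of {S : ℕ → Prop} (hS : Alm (fun _ => True) S)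
    (h : LawP ρ8.Φ fG (fun _ => 0) S) : InfiniteGroup := by
  obtain ⟨d, h1, h2, h3⟩ := inf_seqG hS h {1} fun N hN => by
    rw [mem_singleton.1 hN]
    exact G8_one
  refine ⟨d, h1, h2, fun n r A B => ?_⟩
  have hc : ∀ A : Finset ℕ, Class (part (∏ k ∈ A, d k)) := by
    intro A
    have h4 := G8_sqn (n := A.card) G8_one (d := fun i => d (A.equivFin.symm i)) (fun i => h1 _) univ
    rw [one_mul, Finset.prod_equiv A.equivFin.symm (t := univ) (g := fun k : A => d k) (by simp)
      (fun _ _ => rfl), Finset.prod_coe_sort A d] at h4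
    exact h4
  refine criterion n r _ _ (fun j => hc _) (fun i => hc _) ((nonsing_iff _ _).2 ?_)
  exact sys_inf h1 (fun T hT => h3 1 (mem_singleton_self 1) T hT) A B

end proof

open _root_.Q283.GI _root_.Q283.LP in
open _root_.Q155.NL (Cl Alm) in
/-- **Products of curves over multiquadratic fields, in all odd degrees, inside almost every integer.** -/
theorem result : Criterion ∧ (∃ S : ℕ → Prop,
      Tendsto (fun X : ℕ => (count S X : ℝ) / X) atTop (𝓝 1) ∧
      Tendsto (fun X : ℕ => (count (fun D => Class D ∧ S D) X : ℝ) / count Class X) atTop (𝓝 1) ∧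
      Forms S ∧ Products S ∧ Simultaneous S) ∧ InfiniteGroup ∧ 0.4194 < κ ∧ κ < 0.4195 := by
  obtain ⟨S, hS, hS', hL, -⟩ := mainP ρ8 fG (fun _ => 0) sep8
  refine ⟨criterion, ⟨S, ?_, ?_, forms_of hL, products_of hL, simultaneous_of hL⟩,
    infinite_of hS hL, κ_bd⟩
  · have h1 := Q155.NL.tendsto_of_alm (C := fun _ => True) ⟨1, le_rfl, trivial⟩ hS
    refine h1.congr fun X => ?_
    have h2 : Q155.NL.cnt (fun _ => True) X = X := by
      have h0 : Q155.NL.cs (fun _ => True) X = Finset.Icc 1 X := by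
        ext D
        rw [Q155.NL.mem_cs, Finset.mem_Icc]
        exact ⟨fun h => h.1, fun h => ⟨h, trivial⟩⟩
      unfold Q155.NL.cnt
      rw [h0, Nat.card_Icc]
      omega
    rw [h2]
    congr 2
    unfold Q155.NL.cnt Q155.NL.cs count
    congr 1
    ext D
    simp
  · have h1 := Q155.NL.tendsto_of_alm (C := Cl ρ8.Φ) ⟨1, le_rfl, (cl8 1).2 G8_one⟩ hS'
    refine h1.congr fun X => ?_
    unfold Q155.NL.cnt Q155.NL.cs count
    have e1 : ∀ D, Cl ρ8.Φ D ↔ Class D := fun D => cl8 D
    congr 2
    · exact fcc fun D _ => and_congr (e1 D) Iff.rfl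
    · exact fcc fun D _ => e1 D

end Pool.Agent.Results.MP_b8021b_nt.ProductsInsideDivisors
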