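import Pool.Agent.Q282.PX.Comb
import Pool.Agent.Q282.JK.RankK

/-!
# The conjecture of Beilinson and Bloch for the products of curves: the Euler products at the central points

Let `K` be a number field with the ring of integers `𝓞`, `n ≥ 1`, and let `C_1, ..., C_n` be curves of genus `g_j ≥ 1`
`C_j : y ^ 2 = f_j(x) = (x - a_1) ⋯ (x - a_{r_j}) h(x) + l(x) ^ 2`,
with monic `h` of degree `2 g_j + 1 - r_j` and `l` of degree `< r_j` over `𝓞`, `0 ≤ r_j ≤ g_j`: these are the curves `y ^ 2 = f(x)`,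
`f` monic of degree `2 g_j + 1`, with `r_j` marked points `(a_i, l(a_i))` in general position. Let `X = C_1 × ⋯ × C_n`,
`1 ≤ m ≤ n`. The conjecture of Beilinson and Bloch says that the rank of the group of the homologically trivial cycles of
codimension `m` on `X` is the order of `L(H^(2m-1)(X), s)` at the centre `s = m`. The cycles `{P - ∞} × (products of m - 1 points of
other factors)`, `P` a marked point of a factor `C_j`, are homologically trivial of codimension `m`, and there are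
`binom (n - 1) (m - 1)` of them for each marked point. By the formula of Künneth `H^(2m-1)(X)` is the direct sum of
`b = #{c in {0, 1, 2}^n, c_1 + ⋯ + c_n = 2 m - 1}` symplectic representations `H^(c_1)(C_1) ⊗ ⋯ ⊗ H^(c_n)(C_n)`.

The curves are given by the coordinates of the parameters (the `a_i`, the coefficients of `h` and `l`) in an arbitrary `ℤ`-basis of
`𝓞`, which run through an arbitrary box with sides `≥ T`. It is proved that for almost all `n`-tuples of curves: the rank of the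
Jacobian of every `C_j` over `K` is at least `r_j`, and for all `m = 1, ..., n` at the same time and all `X₀ ≤ X ≤ T ^ c`
`∏_{N v ≤ X} det (1 - Frob_v (N v) ^ (-m) | H^(2m-1)) = (log X) ^ (κ_m) exp (O ((log log X) ^ (1 / 2 + δ)))`,
`κ_m = binom (n - 1) (m - 1) (r_1 + ⋯ + r_n) + b / 2`,
up to a proportion `O ((log log X₀) ^ (-A))` of exceptions. The exponent is the number of the cycles above plus one half for every
constituent; for `n = m = 1` it is the exponent `r + 1 / 2` of the product of Birch and Swinnerton-Dyer for one curve.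

Proof. With `T_k = #C_j(F_k) - q ^ k - 1` the logarithm of the factor is the sum over the constituents of
`∑_k (1 / k) ∏ T_k(C_j) q ^ (- k (1 + s) / 2)`, `s` (odd) the number of the factors with `c_j = 1`. The bound of Weil shows that
`k ≥ 3` contributes `O (q ^ (-3 / 2))`. The mean of `T_1` over the curves over the residue field is `r_j + O (1 / q)` and the mean of
`T_2` is `q + O(1)`; since the curves are independent, only the constituents with one factor `H^1` contribute for `k = 1`, and all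
constituents contribute `1 / (2 q)` for `k = 2`. The law follows by the general law for functions of the residues of integral
vectors over number fields (moments and a maximal inequality). The rank: a sieve for every factor.
-/

set_option autoImplicit false

namespace Pool.Agent.Results.MP_b8021b_nt.ProductsOfCurves

open Finset NumberField Polynomial
open Q282.JK Q282.PX

/-- `κ_m = binom (n - 1) (m - 1) (r_1 + ... + r_n) + b / 2`, where `b` is the number of the constituents
`H^(c_1)(C_1) ⊗ ... ⊗ H^(c_n)(C_n)`, `c_1 + ... + c_n = 2 m - 1`, of `H^(2m-1)(C_1 × ... × C_n)`. -/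
noncomputable def exponent {n : ℕ} (r : Fin n → ℕ) (m : ℕ) : ℝ :=
  (n - 1).choose (m - 1) * ∑ j, (r j : ℝ) + (types n (2 * m - 1)).card / 2

/-- Every `f j` is irreducible over `K`; the group of the `K`-rational points of the Jacobian of the curve `C_j : y ^ 2 = f_j(x)`,
which is the class group of its affine coordinate ring over `K`, has rank at least `r j`; and for `m = 1, ..., n` and all integers
`X` with `X₀ ≤ X ≤ Y` the product `P_m(X)` of the `det (1 - Frob_v (N v) ^ (-m) | H^(2m-1)(C_1 × ... × C_n))` over the primes `v`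
of `K` of norm at most `X` with `GoodP f v` is positive and satisfies
`|log P_m(X) - κ_m log log X| ≤ (log log X) ^ (1 / 2 + δ)`. -/
def Typical (K : Type) [Field K] [NumberField K] {n : ℕ} (r : Fin n → ℕ) (δ : ℝ) (X₀ : ℕ) (Y : ℝ) (f : Fin n → (𝓞 K)[X]) : Prop :=
  (∀ j, Irreducible ((f j).map (algebraMap (𝓞 K) K)) ∧ HasClassRank (CoordRing ((f j).map (algebraMap (𝓞 K) K))) (r j)) ∧
    ∀ m : ℕ, 1 ≤ m → m ≤ n → ∀ X : ℕ, X₀ ≤ X → (X : ℝ) ≤ Y → 0 < productP f m X ∧
      |Real.log (productP f m X) - exponent r m * Real.log (Real.log X)| ≤ (Real.log (Real.log X)) ^ (1 / 2 + δ)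

open Classical in
/-- Let `K` be a number field, `n ≥ 0`, `g_j ≥ 1` and `0 ≤ r_j ≤ g_j` for `j = 1, ..., n`, `δ > 0` and `A > 0`. There are `c > 0` and
`C` with the following property. Let `b` be a basis of the ring of integers of `K` over `ℤ`, let a box `N k ≤ n k < N k + L k` of
coordinates be given all sides `L k` of which are at least `T`, and let `16 ≤ X₀ ≤ T ^ c`. Then all but at most a proportion
`C (log log X₀) ^ (-A)` of the `ν` of the box have the following properties for the parameters `t = comb b ν`,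
`t i = ∑ ν (i, j) b j`, and the polynomials `f_j = fj t j = (x - a_1) ⋯ (x - a_{r_j}) h(x) + l(x) ^ 2` of degree `2 g_j + 1`, whose
coefficients are the parameters with the index `j`: every `f_j` is irreducible over `K`; the group of the `K`-rational points of
the Jacobian of the curve `C_j : y ^ 2 = f_j(x)` has rank at least `r_j`; and for `m = 1, ..., n` and all integers `X` with
`X₀ ≤ X ≤ T ^ c` the product `P_m(X)` of the `det (1 - Frob_v (N v) ^ (-m) | H^(2m-1)(C_1 × ... × C_n))` over the primes `v` of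
`K` of norm at most `X` with `GoodP f v` is positive and satisfies
`|log P_m(X) - κ_m log log X| ≤ (log log X) ^ (1 / 2 + δ)`, `κ_m = binom (n - 1) (m - 1) (r_1 + ... + r_n) + b / 2`, `b` the number
of the constituents `H^(c_1)(C_1) ⊗ ... ⊗ H^(c_n)(C_n)` of `H^(2m-1)(C_1 × ... × C_n)`. -/
theorem result (K : Type) [Field K] [NumberField K] (n : ℕ) (g r : Fin n → ℕ) (hg : ∀ j, 1 ≤ g j) (hr : ∀ j, r j ≤ g j)
    (δ A : ℝ) (hδ : 0 < δ) (hA : 0 < A) :
    ∃ c : ℝ, 0 < c ∧ ∃ C : ℝ, ∀ (b : Module.Basis (Fin (Module.finrank ℚ K)) ℤ (𝓞 K))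
    (N : Ix g r × Fin (Module.finrank ℚ K) → ℤ) (L : Ix g r × Fin (Module.finrank ℚ K) → ℕ) (T : ℝ),
    0 < T → (∀ k, T ≤ L k) → ∀ X₀ : ℕ, 16 ≤ X₀ → (X₀ : ℝ) ≤ T ^ c →
      (((Q282.GK.kbox N L).filter fun ν => ¬ Typical K r δ X₀ (T ^ c) (fj (Q282.GK.comb b ν))).card : ℝ) ≤
        C * (Real.log (Real.log X₀)) ^ (-A) * ∏ k, (L k : ℝ) := by
  have hloc : ∀ m : ℕ, ∃ B : ℝ, 0 < B ∧ (1 ≤ m → Q282.GK.Local K (Ix g r) 3 (exponent r m) B B (fun v t => valP (fj t) m v)) := by
    intro m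
    by_cases hm : 1 ≤ m
    · obtain ⟨B, hB, h1, -⟩ := loc_P K n m hm g r hg hr
      refine ⟨B, hB, fun _ => ?_⟩
      rw [kap_eq m hm] at h1
      exact h1
    · exact ⟨1, one_pos, fun h => absurd h hm⟩
  choose B hB hloc using hloc
  have hlaw := fun m : ℕ => Q282.GK.law_K K (Ix g r) 3 (exponent r m) (B m) (B m) (hB m) (hB m).le δ A hδ hA
  choose cf hcf Cf hCf hlawf using hlaw
  obtain ⟨c, hc, hcmin⟩ := Q282.NF.exists_min (s := Icc 1 n) cf hcf
  have hrk := fun j : Fin n => rank_J K (g j) (r j) (2 * g j + 1 - r j) (by have := hr j; omega) (hr j) (hg j) A hA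
  choose Cr hCr hrank using hrk
  refine ⟨min c 1, lt_min hc zero_lt_one, ∑ m ∈ Icc 1 n, Cf m + ∑ j, Cr j, fun b N L T hT0 hTL X₀ hX₀ hXT => ?_⟩
  have hb : ∀ x : 𝓞 K, ∃ a : Fin (Module.finrank ℚ K) → ℤ, x = ∑ j, (a j : 𝓞 K) * b j := by
    intro x
    refine ⟨fun j => b.repr x j, ?_⟩
    have h1 := b.sum_repr x
    rw [← h1]
    refine sum_congr rfl fun j _ => ?_
    rw [h1, zsmul_eq_mul]
  have hX₀' : (16 : ℝ) ≤ X₀ := by exact_mod_cast hX₀
  have hT1 : 1 ≤ T := by
    by_contra hlt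
    push Not at hlt
    have := Real.rpow_le_one hT0.le hlt.le (lt_min hc zero_lt_one).le
    linarith
  have hXT' : (X₀ : ℝ) ≤ T := by
    refine hXT.trans ?_
    calc T ^ (min c 1) ≤ T ^ (1 : ℝ) := Real.rpow_le_rpow_of_exponent_le hT1 (min_le_right _ _)
      _ = T := Real.rpow_one T
  have hP0 : 0 < ∏ k, (L k : ℝ) := prod_pos fun k _ => hT0.trans_le (hTL k)
  obtain ⟨ℓ, hℓ⟩ : ∃ ℓ : ℝ, ℓ = (Real.log (Real.log X₀)) ^ (-A) := ⟨_, rfl⟩
  -- the exceptional sets
  obtain ⟨E₁, hE₁⟩ : ∃ E₁ : ℕ → Finset (Ix g r × Fin (Module.finrank ℚ K) → ℤ), E₁ = fun m =>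
      (Q282.GK.kbox N L).filter fun ν => ∃ X : ℕ, X₀ ≤ X ∧ (X : ℝ) ≤ T ^ cf m ∧ (Real.log (Real.log X)) ^ (1 / 2 + δ) <
        |∑ v ∈ Q282.GK.SX K X, valP (fj (Q282.GK.comb b ν)) m v - exponent r m * Real.log (Real.log X)| := ⟨_, rfl⟩
  obtain ⟨E₂, hE₂⟩ : ∃ E₂ : Fin n → Finset (Ix g r × Fin (Module.finrank ℚ K) → ℤ), E₂ = fun j =>
      (Q282.GK.kbox N L).filter fun ν => ¬ Ok K (r := r j) (m := 2 * g j + 1 - r j) (fun i => Q282.GK.comb b ν ⟨j, i⟩) := ⟨_, rfl⟩
  have h1 : ∀ m ∈ Icc 1 n, ((E₁ m).card : ℝ) ≤ Cf m * ℓ * ∏ k, (L k : ℝ) := by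
    intro m hm
    rw [mem_Icc] at hm
    rw [hℓ]
    refine hlawf m (fun v t => valP (fj t) m v) (hloc m hm.1) (fun j => b j) hb N L T hT0 hTL X₀ hX₀ (E₁ m)
      (by rw [hE₁]; exact filter_subset _ _) ?_
    intro ν hν
    rw [hE₁] at hν
    exact (mem_filter.1 hν).2
  have h2 : ∀ j : Fin n, ((E₂ j).card : ℝ) ≤ Cr j * ℓ * ∏ k, (L k : ℝ) := by
    intro j
    obtain ⟨e, he⟩ : ∃ e : Idx (r j) (2 * g j + 1 - r j) × Fin (Module.finrank ℚ K) → Ix g r × Fin (Module.finrank ℚ K),
        e = fun k => (⟨j, k.1⟩, k.2) := ⟨_, rfl⟩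
    have hinj : Function.Injective e := by
      rintro ⟨k, l⟩ ⟨k', l'⟩ h
      rw [he] at h
      have h3 : (⟨j, k⟩ : Ix g r) = ⟨j, k'⟩ := congrArg Prod.fst h
      have h4 : l = l' := congrArg Prod.snd h
      rw [h4]
      have h5 : k = k' := eq_of_heq (Sigma.mk.inj h3).2
      rw [h5]
    have hm := kbox_marg e hinj N L (fun ν' => ¬ Ok K (r := r j) (m := 2 * g j + 1 - r j) (Q282.GK.comb b ν'))
    have hE : E₂ j = (Q282.GK.kbox N L).filter fun ν => (fun ν' => ¬ Ok K (r := r j) (m := 2 * g j + 1 - r j) (Q282.GK.comb b ν'))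
        (fun k => ν (e k)) := by
      rw [hE₂, he]
      rfl
    have h3 := hrank j (fun i => b i) hb (fun k => N (e k)) (fun k => L (e k)) T X₀ hX₀ hXT' (fun k => hTL _)
      ((Q282.GK.kbox (fun k => N (e k)) (fun k => L (e k))).filter
        fun ν' => ¬ Ok K (r := r j) (m := 2 * g j + 1 - r j) (Q282.GK.comb b ν')) (filter_subset _ _)
      (fun ν hν => (mem_filter.1 hν).2)
    rw [← hℓ] at h3
    have hP' : 0 < ∏ k, (L (e k) : ℝ) := prod_pos fun k _ => hT0.trans_le (hTL _)
    have h4 : ((E₂ j).card : ℝ) * ∏ k, (L (e k) : ℝ) =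
        (((Q282.GK.kbox (fun k => N (e k)) (fun k => L (e k))).filter
          fun ν' => ¬ Ok K (r := r j) (m := 2 * g j + 1 - r j) (Q282.GK.comb b ν')).card : ℝ) * ∏ k, (L k : ℝ) := by
      rw [hE]
      exact_mod_cast hm
    have h5 := mul_le_mul_of_nonneg_right h3 hP0.le
    rw [← h4] at h5
    have h6 : Cr j * (∏ k, (L (e k) : ℝ)) * ℓ * ∏ k, (L k : ℝ) = (Cr j * ℓ * ∏ k, (L k : ℝ)) * ∏ k, (L (e k) : ℝ) := by ring
    rw [h6] at h5
    exact le_of_mul_le_mul_right h5 hP'
  have h3 : ((Q282.GK.kbox N L).filter fun ν => ¬ Typical K r δ X₀ (T ^ (min c 1)) (fj (Q282.GK.comb b ν))) ⊆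
      (Icc 1 n).biUnion E₁ ∪ univ.biUnion E₂ := by
    intro ν hν
    rw [mem_filter] at hν
    rw [mem_union]
    by_contra hno
    rw [not_or, mem_biUnion, mem_biUnion] at hno
    push Not at hno
    refine hν.2 ⟨fun j => ?_, fun m hm1 hmn X hX1 hX2 => ?_⟩
    · have h4 : Ok K (r := r j) (m := 2 * g j + 1 - r j) (fun i => Q282.GK.comb b ν ⟨j, i⟩) := by
        by_contra h5
        refine hno.2 j (mem_univ _) ?_
        rw [hE₂]
        exact mem_filter.2 ⟨hν.1, h5⟩
      exact ⟨h4.1, h4.2⟩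
    · obtain ⟨h5, h6⟩ := log_productP (fj (Q282.GK.comb b ν)) m X
      refine ⟨h5, ?_⟩
      rw [h6]
      by_contra h7
      push Not at h7
      refine hno.1 m (mem_Icc.2 ⟨hm1, hmn⟩) ?_
      rw [hE₁]
      refine mem_filter.2 ⟨hν.1, X, hX1, hX2.trans ?_, h7⟩
      exact Real.rpow_le_rpow_of_exponent_le hT1 ((min_le_left _ _).trans (hcmin m (mem_Icc.2 ⟨hm1, hmn⟩)))
  have h4 : (((Q282.GK.kbox N L).filter fun ν => ¬ Typical K r δ X₀ (T ^ (min c 1)) (fj (Q282.GK.comb b ν))).card : ℝ) ≤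
      ∑ m ∈ Icc 1 n, ((E₁ m).card : ℝ) + ∑ j, ((E₂ j).card : ℝ) := by
    have h5 := (card_le_card h3).trans (card_union_le _ _)
    have h6 := card_biUnion_le (s := Icc 1 n) (t := E₁)
    have h7 := card_biUnion_le (s := (univ : Finset (Fin n))) (t := E₂)
    have h8 := h5.trans (add_le_add h6 h7)
    exact_mod_cast h8
  refine h4.trans ((add_le_add (sum_le_sum h1) (sum_le_sum fun j _ => h2 j)).trans (le_of_eq ?_))
  rw [← hℓ, ← sum_mul, ← sum_mul, ← sum_mul, ← sum_mul]
  ring

end Pool.Agent.Results.MP_b8021b_nt.ProductsOfCurves
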