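import Pool.Agent.Q161.ESV.All3

/-!
# Ranks of homologically trivial cycles and Bloch-Kato Selmer groups over genus fields and `(ℤ/2)^m`-extensions

Let `F` be any number field.  (A) Let `J_i` be the Jacobian of the curve `y² = h_i(x)`, `h_i ∈ F[x]` monic of odd degree, irreducible, and
of degree three, or with symmetric Galois group, or with `J_i[2]` semisimple.  For a number field `K` containing `F` the group `J_i(K)`
is the group of the homologically trivial cycles of codimension one (degree zero divisor classes) of the curve over `K`.  (B) Let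
`ρ : G_F → GL_n(ℤ_2)` be continuous, unramified outside a finite set of primes, `ρ` mod 2 semisimple without nonzero invariants, `V = ℚ_2^n`.
The Bloch-Kato Selmer group `H¹_f(K, V)` is the conjectural target of the 2-adic Abel-Jacobi map, for `V = H^(2m-1)(X, ℚ_2(m))`, and its
dimension is by the conjectures of Beilinson, Bloch and Kato the rank of the group of the homologically trivial cycles of codimension `m` of
`X_K`.  We bound on average, with all exponential moments, the rank `R(K) = ∑ rank J_i(K)` in (A), and `R(K) = dim H¹_f(K, V)` in (B), for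

* ALL Galois extensions `K/F` with group `(ℤ/2)^m`, `m` fixed, ordered by discriminant ((A): `MP_1d384c_nt.JacobiansOverNumberFields`);
* all genus fields `K_A = F(√c : c ∈ F^*, v(c) even for v ∉ A)`, `A` any finite set of prime ideals (`F = ℚ`: `K_A = ℚ(√-1, √p : p ∈ A)`), whose
  degrees are of the order `2^#A`: here `R(K_A)/[K_A : F]` is bounded on average with all exponential moments.

Proof.  `R(K)` is at most the sum of the values for the twists by the `D ∈ F^*/F^*²` which become squares in `K`; in (B) by the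
corestrictions `H¹(K, V) → H¹(F, V_D)`, whose kernels meet in zero and which respect the local conditions.  So the bounds follow
from those for all quadratic twists (`MP_ec4e4b_nt.SelmerGroupsOfAllTwists`), with the weights `M^ω(D)`.
Project of helper161 with helpers 14, 18, 24, 26, 38, 63, 65, 68, 79, 83, 92, 96, 110, 121, 123, 124, 129, 144, 147, 149, 150,
151, 153, 158, 162, 164, 166, 177, 182, 184, 186, 187, 190, 193, 195, 208, 210, 211, 214, 223, 224, 237, 238, 241, 252, 254, 256,
261, 275, 277, 285, 299.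
-/

set_option autoImplicit false

namespace Pool.Agent.Results.MP_b8021b_nt.RanksInMultiquadraticTowers

open Finset NumberField IsDedekindDomain Pool.Agent.Q161.ESL

open Pool.Agent.Q161.ESJ (HP Admissible rankOverJ quinticQ quinticQ_adm t_desc t_mqj)
open Pool.Agent.Q161.ESB (El Elementary AllElementary)
open Pool.Agent.Q161.ESV (GF AdV HasInd dimSel gp)

open scoped Classical

/-- the bounds for the values `R K` over the Galois extensions `K` of `F` with group `(ℤ/2)^m`, with the exponent `k`.  (1) For all `X ≥ 1`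
and all families of `n` extensions, pairwise not isomorphic over `F`, of discriminants at most `X^(2^(m-1))`, with
`L = X (1 + log X)^(2^m - 2)`: the sums of `2^(k R(K))` and of `R(K)^k` are at most `C L`, for all `t` at most `C L / 2^(k t)` of the `K`
satisfy `R(K) ≥ t`, and `k` times the sum of `R(K)` is at most `n log_2 (C L / n)` if `n > 0`.  (2) If the family is complete, the means of
`2^(k R(K))` and of `R(K)^k` are at most `C` and the proportion of the `K` with `R(K) ≥ t` is at most `C / 2^(k t)`. -/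
def ExtensionBounds (F : Type) [Field F] [NumberField F] (m : ℕ)
    (R : (K : Type) → [Field K] → [NumberField K] → [Algebra F K] → ℕ) (k : ℕ) (C : ℝ) : Prop :=
  ∀ (X : ℝ) (n : ℕ) (K : Fin n → Type) [∀ i, Field (K i)] [∀ i, NumberField (K i)]
    [∀ i, Algebra F (K i)], 1 ≤ X →
    (Elementary F m X K →
      (∑ i, (2 : ℝ) ^ (k * R (K i)) ≤ C * X * (1 + Real.log X) ^ (2 ^ m - 2)) ∧
      (∑ i, (R (K i) : ℝ) ^ k ≤ C * X * (1 + Real.log X) ^ (2 ^ m - 2)) ∧
      (∀ t : ℕ, ((univ.filter (fun i => t ≤ R (K i))).card : ℝ) ≤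
        C * X * (1 + Real.log X) ^ (2 ^ m - 2) / 2 ^ (k * t)) ∧
      (0 < n → k * ∑ i, (R (K i) : ℝ) ≤
        n * Real.logb 2 (C * X * (1 + Real.log X) ^ (2 ^ m - 2) / n))) ∧
    (AllElementary F m X K → (∑ i, (2 : ℝ) ^ (k * R (K i)) ≤ C * n) ∧
      (∑ i, (R (K i) : ℝ) ^ k ≤ C * n) ∧
      ∀ t : ℕ, ((univ.filter (fun i => t ≤ R (K i))).card : ℝ) ≤ C * n / 2 ^ (k * t))

/-- the bounds for the values `R K` over the genus fields of `F`; `ρ(K) = R(K)/[K : F]` (`relR R K`).  (1) For all `M ≥ 1`, `k ≥ 0` there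
is a `C` such that for all `X ≥ 1` and all families of genus fields `K_A` for different `A` with `N(A) ≤ X` the sum of
`(2M)^#A 2^(k ρ(K_A))` is at most `C X (1 + log X)^(2M-1)`; and if the family is complete it is at most
`C` times the sum of `(2M)^#A`, and for all real `t` the sum of `(2M)^#A` over the `A` with `ρ(K_A) ≥ t` is at most
`C 2^(-kt)` times the sum over all `A`.  (2) For all `j ≥ 1` there is a `C` such that for all complete families the sum of
`R(K_A)^j` is at most `C` times the sum of `[K_A : F]^j`. -/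
def GenusBounds (F : Type) [Field F] [NumberField F]
    (R : (K : Type) → [Field K] → [NumberField K] → [Algebra F K] → ℕ) : Prop :=
  (∀ M : ℕ, 1 ≤ M → ∀ k : ℕ, ∃ C : ℝ, 0 < C ∧ ∀ (X : ℝ) (n : ℕ)
    (A : Fin n → Finset (HeightOneSpectrum (𝓞 F))) (K : Fin n → Type)
    [∀ i, Field (K i)] [∀ i, NumberField (K i)] [∀ i, Algebra F (K i)], 1 ≤ X →
    (Genus F X A K →
      ∑ i, ((2 * M : ℕ) : ℝ) ^ (A i).card * (2 : ℝ) ^ ((k : ℝ) * relR R (K i)) ≤
        C * X * (1 + Real.log X) ^ (2 * M - 1)) ∧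
    (AllGenus F X A K →
      (∑ i, ((2 * M : ℕ) : ℝ) ^ (A i).card * (2 : ℝ) ^ ((k : ℝ) * relR R (K i)) ≤
        C * massA (2 * M) A) ∧
      ∀ t : ℝ, ∑ i ∈ univ.filter (fun i => t ≤ relR R (K i)),
        ((2 * M : ℕ) : ℝ) ^ (A i).card ≤ C * massA (2 * M) A / 2 ^ ((k : ℝ) * t))) ∧
  ∀ j : ℕ, 1 ≤ j → ∃ C : ℝ, 0 < C ∧ ∀ (X : ℝ) (n : ℕ)
    (A : Fin n → Finset (HeightOneSpectrum (𝓞 F))) (K : Fin n → Type)
    [∀ i, Field (K i)] [∀ i, NumberField (K i)] [∀ i, Algebra F (K i)], 1 ≤ X →
    AllGenus F X A K → ∑ i, (R (K i) : ℝ) ^ j ≤ C * ∑ i, (Module.finrank F (K i) : ℝ) ^ j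

/-- There is a `C ≥ 1` such that for every finite set `A` of prime ideals of `F` the genus field `K_A` exists, and it is a Galois
extension of `F` whose group has exponent at most two, and `2^#A / C ≤ [K_A : F] ≤ C 2^#A`. -/
def GenusDegrees (F : Type) [Field F] [NumberField F] : Prop :=
  ∃ C : ℝ, 1 ≤ C ∧ ∀ A : Finset (HeightOneSpectrum (𝓞 F)),
    (∃ (K : Type) (_ : Field K) (_ : NumberField K) (_ : Algebra F K), GenusField F A K) ∧
    ∀ (K : Type) [Field K] [NumberField K] [Algebra F K], GenusField F A K →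
      IsGalois F K ∧ (∀ σ : K ≃ₐ[F] K, σ * σ = 1) ∧ (2 : ℝ) ^ A.card / C ≤ Module.finrank F K ∧
        (Module.finrank F K : ℝ) ≤ C * 2 ^ A.card

/-- For every `W ≥ 1` there is a `C ≥ 1` such that for all `X ≥ 1`: there are complete families of the `K_A`, `N(A) ≤ X` (each `A` once),
and for these the sum of `W^#A` is at most `C X (1 + log X)^(W-1)` and at least `X (1 + log X)^(W-1) / C`. -/
def GenusMasses (F : Type) [Field F] [NumberField F] : Prop :=
  ∀ W : ℕ, 1 ≤ W → ∃ C : ℝ, 1 ≤ C ∧ ∀ X : ℝ, 1 ≤ X →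
    (∃ (n : ℕ) (A : Fin n → Finset (HeightOneSpectrum (𝓞 F))) (K : Fin n → Type)
      (_ : ∀ i, Field (K i)) (_ : ∀ i, NumberField (K i)) (_ : ∀ i, Algebra F (K i)),
      AllGenus F X A K) ∧
    ∀ (n : ℕ) (A : Fin n → Finset (HeightOneSpectrum (𝓞 F))) (K : Fin n → Type)
      [∀ i, Field (K i)] [∀ i, NumberField (K i)] [∀ i, Algebra F (K i)], AllGenus F X A K →
      X * (1 + Real.log X) ^ (W - 1) / C ≤ massA W A ∧ massA W A ≤ C * X * (1 + Real.log X) ^ (W - 1)

/-- For every `m ≥ 1` there is a `C ≥ 1` such that for all `X ≥ 1` complete families of the Galois extensions of `F` with group `(ℤ/2)^m` of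
discriminants at most `X^(2^(m-1))` exist, and with `L = X (1 + log X)^(2^m - 2)` they have at most `C L` members, at least
`L / C` if `X ≥ C`. -/
def ExtensionCounts (F : Type) [Field F] [NumberField F] : Prop :=
  ∀ m : ℕ, 1 ≤ m → ∃ C : ℝ, 1 ≤ C ∧ ∀ X : ℝ, 1 ≤ X →
    (∃ (n : ℕ) (K : Fin n → Type) (_ : ∀ i, Field (K i)) (_ : ∀ i, NumberField (K i))
      (_ : ∀ i, Algebra F (K i)), AllElementary F m X K) ∧
    ∀ (n : ℕ) (K : Fin n → Type) [∀ i, Field (K i)] [∀ i, NumberField (K i)]
      [∀ i, Algebra F (K i)], AllElementary F m X K →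
      (C ≤ X → X * (1 + Real.log X) ^ (2 ^ m - 2) / C ≤ n) ∧
      (n : ℝ) ≤ C * X * (1 + Real.log X) ^ (2 ^ m - 2)

/-- (B) Let `B ≠ 0`.  For a Galois extension `K` of `F` with group `(ℤ/2)^m` let `H¹_B(K, V)` be the space of the classes in `H¹(K, V)`,
`V = ℚ_2^n` with the action of the Galois group of `K` by `ρ`, which satisfy the condition of Bloch and Kato at all primes not
dividing `B` (`B = 2`: this contains `H¹_f(K, V)`).  It is finite-dimensional, and for its dimension `dimSel` the bounds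
over these extensions, for all `m ≥ 1`, and over the genus fields hold. -/
def SelmerBounds (F : Type) [Field F] [NumberField F] {n : ℕ} (ρ : GF F →* GL (Fin n) ℤ_[2]) : Prop :=
  ∀ B : ℕ, B ≠ 0 →
    (∀ (K : Type) [Field K] [NumberField K] [Algebra F K] (m : ℕ), El F K m →
      BddAbove {t | HasInd ρ (gp F K) B t}) ∧
    (∀ m : ℕ, 1 ≤ m → ∀ k : ℕ, ∃ C : ℝ, 0 < C ∧
      ExtensionBounds F m (fun K _ _ _ => dimSel ρ (gp F K) B) k C) ∧
    GenusBounds F (fun K _ _ _ => dimSel ρ (gp F K) B)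

/-- (A) Let `F` be any number field, `h_1, …, h_r` admissible polynomials over `F`, `J_i` the Jacobian of `y² = h_i(x)`, and `R(K)` the sum of
the ranks of the `J_i(K)` (`rankOverJ`).  Then the bounds over the genus fields (`GenusBounds`) hold.
(B) Let `ρ : G_F → GL_n(ℤ_2)` be a continuous representation, unramified outside a finite set of primes, with
semisimple reduction modulo 2 without nonzero invariants (`AdV ρ`).  Then `SelmerBounds F ρ`.
(C) The numbers of the extensions and of the genus fields.  (D) `x^5 - 4 x + 2` is admissible over `ℚ`, and there is a `ρ` as above with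
`F = ℚ`, `n = 2`. -/
theorem result :
    (∀ (F : Type) [Field F] [NumberField F] (r : ℕ) (H : Fin r → HP F), (∀ i, Admissible (H i)) →
      GenusBounds F (fun K _ _ _ => rankOverJ H K)) ∧
    (∀ (F : Type) [Field F] [NumberField F] (n : ℕ) (ρ : GF F →* GL (Fin n) ℤ_[2]), AdV ρ →
      SelmerBounds F ρ) ∧
    (∀ (F : Type) [Field F] [NumberField F], GenusDegrees F ∧ GenusMasses F ∧ ExtensionCounts F) ∧
    Admissible quinticQ ∧ ∃ ρ : GF ℚ →* GL (Fin 2) ℤ_[2], AdV ρ := by
  refine ⟨fun F _ _ r H h => ?_, fun F _ _ n ρ hρ B hB => ?_, fun F _ _ => ⟨?_, fun W hW => ?_, fun m hm => ?_⟩,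
    quinticQ_adm, Pool.Agent.Q161.ESV.t_exa⟩
  · exact ⟨fun M hM k => mainK t_kmr t_deg t_dbl t_lwa _ (ctl_J t_desc t_mqj H h) M hM k,
      fun j hj => momentK t_kmr t_deg t_dbl t_lwa _ (ctl_J t_desc t_mqj H h) j hj⟩
  · have h0 := Pool.Agent.Q161.ESV.t_momR ρ hρ B hB
    have h1 := Pool.Agent.Q161.ESV.domD Pool.Agent.Q161.ESV.t_rsq Pool.Agent.Q161.ESV.t_dec hρ h0
    refine ⟨fun K _ _ _ m hK => Pool.Agent.Q161.ESV.finD Pool.Agent.Q161.ESV.t_dec
      Pool.Agent.Q161.ESB.t_kum hρ h0.1 m K hK, fun m hm k => ?_,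
      ⟨fun M hM k => mainK t_kmr t_deg t_dbl t_lwa _ h1.ctl M hM k,
        fun j hj => momentK t_kmr t_deg t_dbl t_lwa _ h1.ctl j hj⟩⟩
    exact Pool.Agent.Q161.ESB.gen Pool.Agent.Q161.ESB.t_cnt Pool.Agent.Q161.ESB.t_fam
      Pool.Agent.Q161.ESB.t_kum Pool.Agent.Q161.ESB.t_iso Pool.Agent.Q161.ESB.t_dsc
      Pool.Agent.Q161.ESB.t_ext Pool.Agent.Q161.ESB.t_lowb Pool.Agent.Q161.ESB.t_dup F m hm
      (fun K _ _ _ => dimSel ρ (gp F K) B) k
      (h1.core Pool.Agent.Q161.ESB.t_cnt Pool.Agent.Q161.ESB.t_fam Pool.Agent.Q161.ESB.t_kum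
        Pool.Agent.Q161.ESB.t_iso m hm k)
  · obtain ⟨C, hC, h⟩ := degree t_kmr t_deg F
    exact ⟨C, hC, fun A => ⟨t_kgf F A, fun K _ _ _ hK => h A K hK⟩⟩
  · obtain ⟨C1, hC1, h1⟩ := massA_le t_idw F W hW
    obtain ⟨C2, hC2, h2⟩ := massA_ge t_lwa F W hW
    refine ⟨max C1 C2, hC2.trans (le_max_right _ _), fun X hX =>
      ⟨exists_complete t_idw t_kgf F X hX, fun n A K _ _ _ hG => ⟨?_, ?_⟩⟩⟩
    · rw [div_le_iff₀ (by linarith [le_max_right C1 C2])]
      calc X * (1 + Real.log X) ^ (W - 1) ≤ C2 * massA W A := h2 X hX n A hG.inj hG.all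
        _ ≤ max C1 C2 * massA W A :=
          mul_le_mul_of_nonneg_right (le_max_right _ _) (massA_nonneg W A)
        _ = _ := mul_comm _ _
    · refine (h1 X hX n A hG.inj hG.norm).trans ?_
      have hlX : 0 ≤ Real.log X := Real.log_nonneg hX
      have := le_max_left C1 C2
      gcongr
  · exact Pool.Agent.Q161.ESB.number Pool.Agent.Q161.ESB.t_dsc Pool.Agent.Q161.ESB.t_cnt
      Pool.Agent.Q161.ESB.t_fam Pool.Agent.Q161.ESB.t_kum Pool.Agent.Q161.ESB.t_iso
      Pool.Agent.Q161.ESB.t_ext Pool.Agent.Q161.ESB.t_lowb Pool.Agent.Q161.ESB.t_dup F m hm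

end Pool.Agent.Results.MP_b8021b_nt.RanksInMultiquadraticTowers
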